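import Pool.Agent.ALQ.Defs

/-!
# [ALQ-A0] values of lists
-/

set_option autoImplicit false

namespace ALQ

open AG ALG

theorem a0_sum {J : Type*} [Fintype J] [DecidableEq J] (N B : ℕ) (e : J ≃ Fin N) (l : List J) :
    wt (fun j => B ^ (e j).val) l = ∑ i : Fin N, l.count (e.symm i) * B ^ i.val := by
  have h1 : wt (fun j => B ^ (e j).val) l = ∑ j, l.count j * B ^ (e j).val := by
    unfold wt
    rw [Finset.sum_list_map_count]
    simp only [smul_eq_mul]
    apply Finset.sum_subset (Finset.subset_univ _)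
    intro x _ hx
    rw [List.mem_toFinset] at hx
    rw [List.count_eq_zero_of_not_mem hx, zero_mul]
  rw [h1, ← Equiv.sum_comp e (fun i => l.count (e.symm i) * B ^ i.val)]
  apply Finset.sum_congr rfl
  intro j _
  rw [Equiv.symm_apply_apply]

theorem a0_wt {J : Type*} (N B : ℕ) (e : J ≃ Fin N) (l : List J) :
    wt (fun j => B ^ N + B ^ (e j).val) l = l.length * B ^ N + wt (fun j => B ^ (e j).val) l := by
  induction l with
  | nil => simp [wt]
  | cons j l ih =>
    have h1 : ∀ w : J → ℕ, wt w (j :: l) = w j + wt w l := fun w => by simp [wt]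
    rw [h1, h1, ih, List.length_cons]
    ring

theorem a0_lt {J : Type*} (N r : ℕ) (e : J ≃ Fin N) (l : List J) (hl : l.length ≤ r) :
    wt (fun j => (r + 1) ^ (e j).val) l < (r + 1) ^ N := by
  rcases Nat.eq_zero_or_pos N with hN | hN
  · subst hN
    have h1 : l = [] := by
      cases l with
      | nil => rfl
      | cons j l => exact (e j).elim0
    rw [h1]
    simp [wt]
  · have h1 : wt (fun j => (r + 1) ^ (e j).val) l ≤ l.length * (r + 1) ^ (N - 1) := by
      clear hl
      induction l with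
      | nil => simp [wt]
      | cons j l ih =>
        have h1 : ∀ w : J → ℕ, wt w (j :: l) = w j + wt w l := fun w => by simp [wt]
        rw [h1, List.length_cons, Nat.succ_mul]
        have h2 : (r + 1) ^ (e j).val ≤ (r + 1) ^ (N - 1) :=
          Nat.pow_le_pow_right (Nat.succ_pos r) (by have := (e j).2; omega)
        omega
    have h2 : (r + 1) ^ N = (r + 1) * (r + 1) ^ (N - 1) := by
      rw [← pow_succ']
      congr 1
      omega
    rw [h2]
    have h3 : l.length * (r + 1) ^ (N - 1) ≤ r * (r + 1) ^ (N - 1) := Nat.mul_le_mul_right _ hl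
    have h4 : 0 < (r + 1) ^ (N - 1) := pow_pos (Nat.succ_pos r) _
    have h5 : (r + 1) * (r + 1) ^ (N - 1) = r * (r + 1) ^ (N - 1) + (r + 1) ^ (N - 1) := by ring
    omega

/-- PROOF. `N = card J`, `e : J ≃ Fin N`, `B = r + 1`, `ν j = B ^ N + B ^ (e j)`. For a list `l` of length `a ≤ r`: `wt ν l = a B ^ N + ∑_{j ∈ l} B ^ (e j)` and, if `l ≠ []`, the sum is at most `a B ^ (N - 1) < B ^ N`
(`N ≥ 1` as `l ≠ []`). So `wt ν l < (a + 1) B ^ N`, this gives `lt`; and if `wt ν l = wt ν l'` then the lengths are equal, and `∑_j (count j l) B ^ (e j) = ∑_j (count j l') B ^ (e j)` with digits less than `B`, so the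
counts are equal (uniqueness of the digits: e.g. `finFunctionFinEquiv`, `Nat.ofDigits_inj_of_len_eq`, or induction), `List.perm_iff_count`. -/
theorem exists_val (J : Type*) [Finite J] (r : ℕ) : ∃ ν : J → ℕ, Val ν r := by
  classical
  have := Fintype.ofFinite J
  obtain ⟨N, hN⟩ : ∃ N, N = Fintype.card J := ⟨_, rfl⟩
  obtain ⟨e⟩ : Nonempty (J ≃ Fin N) := by
    rw [hN]
    exact ⟨Fintype.equivFin J⟩
  have hlt : ∀ l l' : List J, l'.length ≤ r → l.length < l'.length →
      wt (fun j => (r + 1) ^ N + (r + 1) ^ (e j).val) l <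
        wt (fun j => (r + 1) ^ N + (r + 1) ^ (e j).val) l' := by
    intro l l' h1 h2
    rw [a0_wt, a0_wt]
    have h3 := a0_lt N r e l (by omega)
    have h4 : (l.length + 1) * (r + 1) ^ N ≤ l'.length * (r + 1) ^ N := Nat.mul_le_mul_right _ h2
    rw [Nat.succ_mul] at h4
    omega
  refine ⟨fun j => (r + 1) ^ N + (r + 1) ^ (e j).val, hlt, ?_⟩
  intro l l' h1 h2 h3
  have hlen : l.length = l'.length := by
    rcases lt_trichotomy l.length l'.length with h4 | h4 | h4
    · exact absurd h3 (hlt l l' h2 h4).ne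
    · exact h4
    · exact absurd h3 (hlt l' l h1 h4).ne'
  rw [a0_wt, a0_wt, hlen, Nat.add_left_cancel_iff, a0_sum, a0_sum] at h3
  have hc : ∀ (l : List J), l.length ≤ r → ∀ j, l.count j < r + 1 := fun l hl j =>
    Nat.lt_succ_of_le (List.count_le_length.trans hl)
  have h5 : finFunctionFinEquiv (fun i : Fin N => (⟨l.count (e.symm i), hc l h1 _⟩ : Fin (r + 1))) =
      finFunctionFinEquiv (fun i : Fin N => (⟨l'.count (e.symm i), hc l' h2 _⟩ : Fin (r + 1))) := by
    apply Fin.ext
    rw [finFunctionFinEquiv_apply, finFunctionFinEquiv_apply]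
    exact h3
  have h6 := finFunctionFinEquiv.injective h5
  rw [List.perm_iff_count]
  intro j
  have h7 := congrArg Fin.val (congrFun h6 (e j))
  simpa using h7

end ALQ
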