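import Pool.Agent.ALQ.Defs

/-!
# [ALQ-A1] elementary facts on lists of operators
-/

set_option autoImplicit false

namespace ALQ

open AG ALG

variable {k V J : Type*} [Field k] [AddCommGroup V] [Module k V]

theorem wt_cons (w : J → ℕ) (j : J) (l : List J) : wt w (j :: l) = w j + wt w l := by
  simp [wt]

theorem wt_append (w : J → ℕ) (l l' : List J) : wt w (l ++ l') = wt w l + wt w l' := by
  simp [wt]

theorem wt_perm (w : J → ℕ) {l l' : List J} (h : l.Perm l') : wt w l = wt w l' :=
  (h.map w).sum_eq

/-- PROOF. Induction on `l`, `1 ≤ w j`. -/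
theorem length_le_wt {w : J → ℕ} (hw : ∀ j, 1 ≤ w j) (l : List J) : l.length ≤ wt w l := by
  induction l with
  | nil => exact Nat.zero_le _
  | cons j l ih =>
    rw [wt_cons, List.length_cons]
    have := hw j
    omega

theorem act_append (β : J → V →ₗ[k] V) (l l' : List J) (u : V) :
    act β (l ++ l') u = act β l (act β l' u) := by
  induction l with
  | nil => rfl
  | cons j l ih =>
    show β j (act β (l ++ l') u) = β j (act β l (act β l' u))
    rw [ih]

/-- PROOF. `act β l` is linear: induction on `l`. -/
theorem act_sub (β : J → V →ₗ[k] V) (l : List J) (u v : V) :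
    act β l (u - v) = act β l u - act β l v := by
  induction l with
  | nil => rfl
  | cons j l ih =>
    show β j (act β l (u - v)) = β j (act β l u) - β j (act β l v)
    rw [ih, map_sub]

theorem act_smul (β : J → V →ₗ[k] V) (l : List J) (c : k) (u : V) :
    act β l (c • u) = c • act β l u := by
  induction l with
  | nil => rfl
  | cons j l ih =>
    show β j (act β l (c • u)) = c • β j (act β l u)
    rw [ih, map_smul]

theorem act_sum (β : J → V →ₗ[k] V) (l : List J) {ι : Type*} (s : Finset ι) (f : ι → V) :
    act β l (∑ i ∈ s, f i) = ∑ i ∈ s, act β l (f i) := by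
  induction l with
  | nil => rfl
  | cons j l ih =>
    show β j (act β l (∑ i ∈ s, f i)) = ∑ i ∈ s, β j (act β l (f i))
    rw [ih, map_sum]

/-- PROOF. Induction on `l` with `h.map`. -/
theorem FOp.act_mem [Fintype J] {p : ℕ} {F : ℕ → Submodule k V} {w : J → ℕ}
    {β : J → V →ₗ[k] V} {r : ℕ} (h : FOp p F w β r) (l : List J) {u : V} {i : ℕ} (hu : u ∈ F i) :
    act β l u ∈ F (i + wt w l) := by
  induction l with
  | nil => exact hu
  | cons j l ih =>
    have h1 := h.map j _ _ ih
    rw [wt_cons]
    have h2 : i + wt w l + w j = i + (w j + wt w l) := by omega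
    rw [h2] at h1
    exact h1

/-- PROOF. `Submodule.sup_le` / `Submodule.mem_sup`; the image of a spanning element `act β l u` is `act β (j :: l) u`, with weight `s + w j` and value `ν j + wt ν l < m + ν j`; and `F (i + s + 1)` is mapped to
`F (i + s + 1 + w j)`. -/
theorem FOp.wm_map [Fintype J] {p : ℕ} {F : ℕ → Submodule k V} {w : J → ℕ}
    {β : J → V →ₗ[k] V} {r : ℕ} (h : FOp p F w β r) (ν : J → ℕ) (u : V) (i s m : ℕ) (j : J) {v : V}
    (hv : v ∈ Wm F w ν β u i s m) : β j v ∈ Wm F w ν β u i (s + w j) (m + ν j) := by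
  have h1 : Wm F w ν β u i s m ≤ (Wm F w ν β u i (s + w j) (m + ν j)).comap (β j) := by
    refine sup_le ?_ ?_
    · rw [Submodule.span_le]
      rintro x ⟨l, hl1, hl2, rfl⟩
      refine Submodule.mem_sup_left (Submodule.subset_span ⟨j :: l, ?_, ?_, rfl⟩)
      · rw [wt_cons]; omega
      · rw [wt_cons]; omega
    · intro x hx
      refine Submodule.mem_sup_right ?_
      have h2 := h.map j _ _ hx
      have h3 : i + s + 1 + w j = i + (s + w j) + 1 := by omega
      rw [h3] at h2
      exact h2
  exact h1 hv

end ALQ
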