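import Pool.Agent.ALQ.A2

/-!
# [ALQ-A3] reducible lists
-/

set_option autoImplicit false

namespace ALQ

open AG ALG

variable {k V J : Type*} [Field k] [AddCommGroup V] [Module k V]

/-- PROOF. Induction on `l'` with `wm_map` (`act β (j :: l) u = β j (act β l u)`). -/
theorem FOp.red_append [Fintype J] {p : ℕ} {F : ℕ → Submodule k V} {w : J → ℕ}
    {β : J → V →ₗ[k] V} {r : ℕ} (h : FOp p F w β r) (ν : J → ℕ) (u : V) (i : ℕ)
    (l l' : List J) (h1 : Red F w ν β u i l) : Red F w ν β u i (l' ++ l) := by
  induction l' with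
  | nil => exact h1
  | cons j l' ih =>
    have h2 := h.wm_map ν u i _ _ j ih
    show β j (act β (l' ++ l) u) ∈ Wm F w ν β u i (wt w (j :: (l' ++ l))) (wt ν (j :: (l' ++ l)))
    rw [wt_cons, wt_cons, add_comm (w j), add_comm (ν j)]
    exact h2

/-- PROOF. `l'` is a permutation of `m ++ l` for a list `m` (`List.Subperm.exists_of_length_lt`-like, or `List.subperm_iff`, `List.Subperm.perm_diff`: `l ++ l'.diff l ~ l'` is `List.subperm_append_diff_self_of_count_le`-like; use counts with
`List.subperm_ext_iff`); `red_append` and `red_perm`. -/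
theorem FOp.red_subperm [Fintype J] [DecidableEq J] {p : ℕ} {F : ℕ → Submodule k V} {w : J → ℕ}
    {β : J → V →ₗ[k] V} {r : ℕ} (h : FOp p F w β r) {ν : J → ℕ} (hν : Val ν r) {u : V} {i : ℕ}
    (hu : u ∈ F i) {l l' : List J} (hl : List.Subperm l l') (hr : wt w l' ≤ r)
    (h1 : Red F w ν β u i l) : Red F w ν β u i l' := by
  have h2 : (l ++ l'.diff l).Perm l' := by
    apply List.subperm_append_diff_self_of_count_le
    intro x _
    exact hl.count_le x
  have h3 : (l'.diff l ++ l).Perm l' := List.perm_append_comm.trans h2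
  have h4 := h.red_append ν u i l (l'.diff l) h1
  exact h.red_perm hν hu h3 (by rw [wt_perm w h3]; exact hr) h4

/-- PROOF. `l` is a permutation of `replicate p j ++ m`. By `red_perm` it is enough to consider this list: with `v = act β m u ∈ F (i + wt w m)`, `h.pow` gives `act β (replicate p j ++ m) u = ∑ c x • act β (x :: m) u` modulo
`F (i + wt w m + p * w j + 1)`; if `c x ≠ 0` then `x :: m` has the same weight and a smaller length (`2 ≤ p`), so a smaller value (`hν.lt`). -/
theorem FOp.red_pow [Fintype J] [DecidableEq J] {p : ℕ} (hp : 2 ≤ p) {F : ℕ → Submodule k V}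
    {w : J → ℕ} {β : J → V →ₗ[k] V} {r : ℕ} (h : FOp p F w β r) {ν : J → ℕ} (hν : Val ν r) {u : V}
    {i : ℕ} (hu : u ∈ F i) {l : List J} (j : J) (hj : p ≤ l.count j) (hr : wt w l ≤ r) :
    Red F w ν β u i l := by
  have h2 : List.Subperm (List.replicate p j) l := by
    rw [List.subperm_ext_iff]
    intro x hx
    have hx2 := (List.mem_replicate.1 hx).2
    rw [hx2, List.count_replicate_self]
    exact hj
  have h3 : (List.replicate p j ++ l.diff (List.replicate p j)).Perm l := by
    apply List.subperm_append_diff_self_of_count_le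
    intro x _
    exact h2.count_le x
  obtain ⟨m, hm⟩ : ∃ m, m = l.diff (List.replicate p j) := ⟨_, rfl⟩
  rw [← hm] at h3
  have hr2 : wt w (List.replicate p j ++ m) ≤ r := by rw [wt_perm w h3]; exact hr
  refine h.red_perm hν hu h3 hr2 ?_
  have hwt : wt w (List.replicate p j ++ m) = p * w j + wt w m := by
    rw [wt_append]
    simp [wt, List.map_replicate, List.sum_replicate]
  obtain ⟨c, hc, hc2⟩ := h.pow j (by rw [hwt] at hr2; omega)
  have hv : act β m u ∈ F (i + wt w m) := h.act_mem m hu
  have h4 := hc2 _ _ hv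
  have h5 : act β (List.replicate p j ++ m) u = ∑ x, c x • act β (x :: m) u +
      (act β (List.replicate p j) (act β m u) - ∑ x, c x • β x (act β m u)) := by
    rw [act_append]
    have h6 : ∑ x, c x • act β (x :: m) u = ∑ x, c x • β x (act β m u) := rfl
    rw [h6]
    abel
  unfold Red
  rw [h5]
  refine Submodule.add_mem _ (Submodule.sum_mem _ fun x _ => ?_) (Submodule.mem_sup_right ?_)
  · by_cases hx : c x = 0
    · rw [hx, zero_smul]
      exact Submodule.zero_mem _
    · refine Submodule.smul_mem _ _ (Submodule.mem_sup_left (Submodule.subset_span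
        ⟨x :: m, ?_, ?_, rfl⟩))
      · rw [wt_cons, hwt, hc x hx]
      · refine hν.lt _ _ ((length_le_wt h.pos _).trans hr2) ?_
        rw [List.length_append, List.length_replicate, List.length_cons]
        omega
  · have h7 : i + wt w m + p * w j + 1 = i + wt w (List.replicate p j ++ m) + 1 := by
      rw [hwt]
      omega
    rw [h7] at h4
    exact h4

end ALQ
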