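import Pool.Agent.ALQ.A0
import Pool.Agent.ALQ.A3

/-!
# [ALQ-A10] ordered products with small exponents span
-/

set_option autoImplicit false

namespace ALQ

open AG ALG

variable {k V J : Type*} [Field k] [AddCommGroup V] [Module k V]

theorem a10_sum_flatMap {ι : Type*} (L : List ι) (f : ι → List ℕ) :
    (L.flatMap f).sum = (L.map fun x => (f x).sum).sum := by
  induction L with
  | nil => rfl
  | cons x L ih => rw [List.flatMap_cons, List.sum_append, List.map_cons, List.sum_cons, ih]

/-- PROOF. `List.count_flatMap`, `List.count_replicate`; only the summand `j` contributes. -/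
theorem std_count [Fintype J] [DecidableEq J] (a : J → ℕ) (j : J) : (std a).count j = a j := by
  unfold std
  rw [List.count_flatMap]
  have h1 : (List.map (List.count j ∘ fun x => List.replicate (a x) x)
      (Finset.univ : Finset J).toList).sum = ∑ x, (if x = j then a x else 0) := by
    rw [← Finset.sum_map_toList (Finset.univ : Finset J) (fun x => if x = j then a x else 0)]
    congr 1
    apply List.map_congr_left
    intro x _
    rw [Function.comp_apply, List.count_replicate]
    by_cases hx : x = j
    · simp [hx]
    · simp [hx]
  rw [h1, Finset.sum_ite_eq' Finset.univ j a, if_pos (Finset.mem_univ j)]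

/-- PROOF. `wt w (std a) = ∑ a j w j` (`List.sum_flatMap`-like; `Finset.sum_toList`). -/
theorem wt_std [Fintype J] (w a : J → ℕ) : wt w (std a) = ∑ j, a j * w j := by
  classical
  unfold std wt
  rw [List.map_flatMap, a10_sum_flatMap, ← Finset.sum_map_toList (Finset.univ : Finset J)
    (fun j => a j * w j)]
  congr 1
  apply List.map_congr_left
  intro x _
  simp

/-- PROOF. `ν` from `exists_val`. Strong induction on `wt ν l`. If `p ≤ l.count j` for some `j`, then `l` is reducible (`red_pow`), apply the induction hypothesis to the lists in `Wm` (their weight is `wt w l`). Otherwise let `a j = l.count j < p`; `l` is a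
permutation of `std a` (`std_count`, `List.perm_iff_count`), and by `perm_sub` the difference of `act β l u` and `act β (std a) u` is in `Wm`, apply the induction hypothesis; and `wt w (std a) = wt w l`. -/
theorem FOp.std_span [Fintype J] {p : ℕ} (hp : 2 ≤ p) {F : ℕ → Submodule k V} {w : J → ℕ}
    {β : J → V →ₗ[k] V} {r : ℕ} (h : FOp p F w β r) {u : V} {i : ℕ} (hu : u ∈ F i) (l : List J)
    (hr : wt w l ≤ r) :
    act β l u ∈ Submodule.span k {v | ∃ a : J → Fin p, ∑ j, (a j).val * w j = wt w l ∧
      v = act β (std fun j => (a j).val) u} ⊔ F (i + wt w l + 1) := by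
  classical
  obtain ⟨ν, hν⟩ := exists_val J r
  obtain ⟨m, hm⟩ : ∃ m, m = wt ν l := ⟨_, rfl⟩
  induction m using Nat.strong_induction_on generalizing l with
  | _ m ih =>
    have hW : Wm F w ν β u i (wt w l) (wt ν l) ≤ Submodule.span k {v | ∃ a : J → Fin p,
        ∑ j, (a j).val * w j = wt w l ∧ v = act β (std fun j => (a j).val) u} ⊔
          F (i + wt w l + 1) := by
      unfold Wm
      refine sup_le ?_ le_sup_right
      rw [Submodule.span_le]
      rintro v ⟨l', h1, h2, rfl⟩
      have h3 := ih (wt ν l') (by rw [hm]; exact h2) l' (by rw [h1]; exact hr) rfl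
      rw [h1] at h3
      exact h3
    by_cases hl : ∃ j, p ≤ l.count j
    · obtain ⟨j, hj⟩ := hl
      exact hW (h.red_pow hp hν hu j hj hr)
    · push Not at hl
      obtain ⟨a, ha⟩ : ∃ a : J → Fin p, a = fun j => ⟨l.count j, hl j⟩ := ⟨_, rfl⟩
      have hperm : l.Perm (std fun j => (a j).val) := by
        rw [List.perm_iff_count]
        intro j
        rw [std_count, ha]
      have h1 := hW (h.perm_sub hν hu hperm hr)
      have h2 : act β (std fun j => (a j).val) u ∈ Submodule.span k {v | ∃ a : J → Fin p,
          ∑ j, (a j).val * w j = wt w l ∧ v = act β (std fun j => (a j).val) u} ⊔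
            F (i + wt w l + 1) := by
        refine Submodule.mem_sup_left (Submodule.subset_span ⟨a, ?_, rfl⟩)
        rw [← wt_std, wt_perm w hperm]
      have h3 := Submodule.add_mem _ h1 h2
      rwa [sub_add_cancel] at h3

end ALQ
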