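import Pool.Agent.ALQ.A1

/-!
# [ALQ-A2] permutations of the letters
-/

set_option autoImplicit false

namespace ALQ

open AG ALG

variable {k V J : Type*} [Field k] [AddCommGroup V] [Module k V]

/-- PROOF. Induction on the permutation. `cons`: `wm_map` (and `wt_cons`). `swap` (`b :: a :: l`, `a :: b :: l`): by `h.comm` with `v = act β l u ∈ F (i + wt w l)` the difference is `∑ c x • act β (x :: l) u` modulo
`F (i + wt w (b :: a :: l) + 1)`; if `c x ≠ 0` then `x :: l` has the right weight, and its value is smaller by `hν.lt` (its length is smaller, all lengths are at most the weight, so at most `r`, `length_le_wt`).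
`trans`: the weights and the values of permuted lists are equal (`wt_perm`), add the two differences. -/
theorem FOp.perm_sub [Fintype J] {p : ℕ} {F : ℕ → Submodule k V} {w : J → ℕ}
    {β : J → V →ₗ[k] V} {r : ℕ} (h : FOp p F w β r) {ν : J → ℕ} (hν : Val ν r) {u : V} {i : ℕ}
    (hu : u ∈ F i) {l l' : List J} (hl : l.Perm l') (hr : wt w l ≤ r) :
    act β l u - act β l' u ∈ Wm F w ν β u i (wt w l) (wt ν l) := by
  have hlen : ∀ l : List J, wt w l ≤ r → l.length ≤ r := fun l hl =>
    (length_le_wt h.pos l).trans hl
  induction hl with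
  | nil =>
    rw [sub_self]
    exact Submodule.zero_mem _
  | cons j hl ih =>
    rename_i l1 l2
    rw [wt_cons] at hr
    have h1 := h.wm_map ν u i _ _ j (ih (by omega))
    rw [map_sub] at h1
    rw [wt_cons, wt_cons, add_comm (w j), add_comm (ν j)]
    exact h1
  | swap a b l =>
    rw [wt_cons, wt_cons] at hr
    obtain ⟨c, hc, hc2⟩ := h.comm b a (by omega)
    have hv : act β l u ∈ F (i + wt w l) := h.act_mem l hu
    have h1 := hc2 _ _ hv
    have h2 : act β (b :: a :: l) u - act β (a :: b :: l) u =
        ∑ x, c x • act β (x :: l) u +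
          (β b (β a (act β l u)) - β a (β b (act β l u)) - ∑ x, c x • β x (act β l u)) := by
      show β b (β a (act β l u)) - β a (β b (act β l u)) = _
      have h3 : ∑ x, c x • act β (x :: l) u = ∑ x, c x • β x (act β l u) := rfl
      rw [h3]
      abel
    rw [h2]
    refine Submodule.add_mem _ (Submodule.sum_mem _ fun x _ => ?_) (Submodule.mem_sup_right ?_)
    · by_cases hx : c x = 0
      · rw [hx, zero_smul]
        exact Submodule.zero_mem _
      · refine Submodule.smul_mem _ _ (Submodule.mem_sup_left (Submodule.subset_span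
          ⟨x :: l, ?_, ?_, rfl⟩))
        · rw [wt_cons, wt_cons, wt_cons, hc x hx]
          omega
        · refine hν.lt _ _ (hlen _ ?_) ?_
          · rw [wt_cons, wt_cons]
            omega
          · simp
    · have h4 : i + wt w l + (w b + w a) + 1 = i + wt w (b :: a :: l) + 1 := by
        rw [wt_cons, wt_cons]
        omega
      rw [h4] at h1
      exact h1
  | trans h1 h2 ih1 ih2 =>
    rename_i l1 l2 l3
    have e1 := wt_perm w h1
    have e2 := wt_perm ν h1
    have h3 := ih1 hr
    have h4 := ih2 (by rw [← e1]; exact hr)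
    rw [← e1, ← e2] at h4
    have h5 := Submodule.add_mem _ h3 h4
    rwa [sub_add_sub_cancel] at h5

/-- PROOF. `perm_sub`, the weights and values are equal. -/
theorem FOp.red_perm [Fintype J] {p : ℕ} {F : ℕ → Submodule k V} {w : J → ℕ}
    {β : J → V →ₗ[k] V} {r : ℕ} (h : FOp p F w β r) {ν : J → ℕ} (hν : Val ν r) {u : V} {i : ℕ}
    (hu : u ∈ F i) {l l' : List J} (hl : l.Perm l') (hr : wt w l ≤ r)
    (h1 : Red F w ν β u i l) : Red F w ν β u i l' := by
  have e1 := wt_perm w hl
  have e2 := wt_perm ν hl
  have h2 := h.perm_sub hν hu hl hr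
  unfold Red at h1 ⊢
  rw [← e1, ← e2]
  have h3 := Submodule.sub_mem _ h1 h2
  rwa [sub_sub_cancel] at h3

end ALQ
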