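import Pool.Agent.ALQ.A3

/-!
# [ALQ-A6] irreducible lists span
-/

set_option autoImplicit false

namespace ALQ

open AG ALG

variable {k V J : Type*} [Field k] [AddCommGroup V] [Module k V]

/-- PROOF. Strong induction on `wt ν l`. If `l` is not reducible it is one of the generators. Otherwise `act β l u` is a linear combination of `act β l' u` with `wt w l' = wt w l`, `wt ν l' < wt ν l`, modulo `F (i + wt w l + 1)`
(`Submodule.mem_sup`, `Submodule.span_induction`), apply the induction hypothesis to every `l'`. -/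
theorem FOp.span_irred [Fintype J] {p : ℕ} {F : ℕ → Submodule k V} {w : J → ℕ}
    {β : J → V →ₗ[k] V} {r : ℕ} (h : FOp p F w β r) (ν : J → ℕ) (u : V) (i : ℕ)
    (l : List J) : act β l u ∈
      Submodule.span k {v | ∃ l' : List J, wt w l' = wt w l ∧ ¬ Red F w ν β u i l' ∧ v = act β l' u} ⊔
        F (i + wt w l + 1) := by
  obtain ⟨m, hm⟩ : ∃ m, m = wt ν l := ⟨_, rfl⟩
  induction m using Nat.strong_induction_on generalizing l with
  | _ m ih =>
    by_cases hl : Red F w ν β u i l
    · unfold Red Wm at hl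
      refine (sup_le ?_ le_sup_right : _ ≤ Submodule.span k {v | ∃ l' : List J, wt w l' = wt w l ∧
        ¬ Red F w ν β u i l' ∧ v = act β l' u} ⊔ F (i + wt w l + 1)) hl
      rw [Submodule.span_le]
      rintro v ⟨l', h1, h2, rfl⟩
      have h3 := ih (wt ν l') (by rw [hm]; exact h2) l' rfl
      rw [h1] at h3
      exact h3
    · exact Submodule.mem_sup_left (Submodule.subset_span ⟨l, rfl, hl, rfl⟩)

/-- PROOF. If some `c a ≠ 0`, take one with the largest `wt ν (l a)`. Divide: `act β (l a) u` is a linear combination of the `act β (l b) u`, `b ≠ a`, `c b ≠ 0`, modulo `F (i + s + 1)`; for these `b` the value is at most, and not equal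
(otherwise `l b` is a permutation of `l a` by `hν.inj`; the lengths are at most the weight `s ≤ r`), so smaller: `l a` is reducible, contradiction. -/
theorem FOp.indep [Fintype J] {p : ℕ} {F : ℕ → Submodule k V} {w : J → ℕ}
    {β : J → V →ₗ[k] V} {r : ℕ} (h : FOp p F w β r) {ν : J → ℕ} (hν : Val ν r) (u : V) (i s : ℕ)
    (hs : s ≤ r) {ι : Type*} [Fintype ι] (l : ι → List J) (hl : ∀ a, wt w (l a) = s)
    (hn : ∀ a, ¬ Red F w ν β u i (l a)) (hne : ∀ a b, a ≠ b → ¬ (l a).Perm (l b)) (c : ι → k)
    (hc : ∑ a, c a • act β (l a) u ∈ F (i + s + 1)) : c = 0 := by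
  classical
  by_contra hcon
  have hne' : ∃ a, c a ≠ 0 := by
    by_contra h1
    push Not at h1
    exact hcon (funext h1)
  obtain ⟨a₀, ha₀⟩ := hne'
  obtain ⟨a, ha, hmax⟩ := Finset.exists_max_image (Finset.univ.filter fun a => c a ≠ 0)
    (fun a => wt ν (l a)) ⟨a₀, Finset.mem_filter.2 ⟨Finset.mem_univ _, ha₀⟩⟩
  have hca : c a ≠ 0 := (Finset.mem_filter.1 ha).2
  apply hn a
  have hlen : ∀ b, (l b).length ≤ r := fun b =>
    (length_le_wt h.pos (l b)).trans (by rw [hl b]; exact hs)
  have h1 : ∀ b, b ≠ a → c b ≠ 0 → wt ν (l b) < wt ν (l a) := by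
    intro b hb hcb
    have h2 := hmax b (Finset.mem_filter.2 ⟨Finset.mem_univ _, hcb⟩)
    refine lt_of_le_of_ne h2 fun h3 => ?_
    exact hne b a hb (hν.inj _ _ (hlen b) (hlen a) h3)
  have h2 : act β (l a) u = (c a)⁻¹ • (∑ b, c b • act β (l b) u) -
      ∑ b ∈ Finset.univ.erase a, ((c a)⁻¹ * c b) • act β (l b) u := by
    rw [← Finset.add_sum_erase _ _ (Finset.mem_univ a), smul_add, Finset.smul_sum, smul_smul,
      inv_mul_cancel₀ hca, one_smul]
    simp only [smul_smul]
    abel
  unfold Red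
  rw [h2]
  refine Submodule.sub_mem _ (Submodule.smul_mem _ _ (Submodule.mem_sup_right ?_))
    (Submodule.sum_mem _ fun b hb => ?_)
  · rw [hl a]
    exact hc
  · by_cases hcb : c b = 0
    · rw [hcb, mul_zero, zero_smul]
      exact Submodule.zero_mem _
    · refine Submodule.smul_mem _ _ (Submodule.mem_sup_left (Submodule.subset_span
        ⟨l b, ?_, h1 b (Finset.ne_of_mem_erase hb) hcb, rfl⟩))
      rw [hl a, hl b]

end ALQ
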