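import Pool.Agent.ALQ.A0
import Pool.Agent.ALQ.A6

/-!
# [ALQ-A8] irreducible lists are short
-/

set_option autoImplicit false

namespace ALQ

open AG ALG

variable {k V J : Type*} [Field k] [AddCommGroup V] [Module k V]

/-- PROOF. For every subset `S` of `l.toFinset` the list `S.toList` is `Subperm` of `l` (counts at most `1`, `List.subperm_ext_iff`), so irreducible (`red_subperm`), of weight at most `wt w l ≤ r`; for different `S` they are not permutations of each
other. For `s ≤ r` the `S` with `wt w S.toList = s` give an independent family (`indep`), so there are at most `D` of them (`hD`, with a bijection to `Fin m`). Sum over `s ≤ r`: `2 ^ card ≤ (r + 1) * D` (`Finset.card_powerset`,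
`Finset.card_eq_sum_card_fiberwise` or `Finset.card_le_mul_card_image`). -/
theorem FOp.two_pow_le [Fintype J] [DecidableEq J] {p : ℕ} {F : ℕ → Submodule k V} {w : J → ℕ}
    {β : J → V →ₗ[k] V} {r : ℕ} (h : FOp p F w β r) {ν : J → ℕ} (hν : Val ν r) {u : V} {i : ℕ}
    (hu : u ∈ F i) (D : ℕ)
    (hD : ∀ s ≤ r, ∀ (m : ℕ) (l : Fin m → List J), (∀ a, wt w (l a) = s) →
      (∀ c : Fin m → k, ∑ a, c a • act β (l a) u ∈ F (i + s + 1) → c = 0) → m ≤ D)
    (l : List J) (hr : wt w l ≤ r) (hl : ¬ Red F w ν β u i l) :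
    2 ^ l.toFinset.card ≤ (r + 1) * D := by
  have hsub : ∀ S ∈ l.toFinset.powerset, List.Subperm S.toList l := by
    intro S hS
    refine List.subperm_of_subset (Finset.nodup_toList S) ?_
    intro x hx
    rw [Finset.mem_toList] at hx
    exact List.mem_toFinset.1 (Finset.mem_powerset.1 hS hx)
  have hwt : ∀ S ∈ l.toFinset.powerset, wt w S.toList ≤ r := by
    intro S hS
    have h1 : (S.toList ++ l.diff S.toList).Perm l := by
      apply List.subperm_append_diff_self_of_count_le
      intro x _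
      exact (hsub S hS).count_le x
    have h2 := wt_perm w h1
    rw [wt_append] at h2
    omega
  have hirr : ∀ S ∈ l.toFinset.powerset, ¬ Red F w ν β u i S.toList := fun S hS h1 =>
    hl (h.red_subperm hν hu (hsub S hS) hr h1)
  have hfib : ∀ s ∈ Finset.range (r + 1),
      (l.toFinset.powerset.filter fun S => wt w S.toList = s).card ≤ D := by
    intro s hs
    obtain ⟨𝒮, h𝒮⟩ : ∃ 𝒮, 𝒮 = l.toFinset.powerset.filter fun S => wt w S.toList = s := ⟨_, rfl⟩
    rw [← h𝒮]
    have hmem : ∀ S ∈ 𝒮, S ∈ l.toFinset.powerset ∧ wt w S.toList = s := by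
      intro S hS
      rw [h𝒮] at hS
      exact Finset.mem_filter.1 hS
    have hs' : s ≤ r := Nat.lt_succ_iff.1 (Finset.mem_range.1 hs)
    refine hD s hs' 𝒮.card (fun a => ((𝒮.equivFin.symm a).1).toList) (fun a =>
      (hmem _ (𝒮.equivFin.symm a).2).2) ?_
    intro c hc
    refine h.indep hν u i s hs' (fun a => ((𝒮.equivFin.symm a).1).toList) (fun a =>
      (hmem _ (𝒮.equivFin.symm a).2).2) (fun a => hirr _ (hmem _ (𝒮.equivFin.symm a).2).1) ?_ c hc
    intro a b hab h1
    apply hab
    have h2 : (𝒮.equivFin.symm a).1 = (𝒮.equivFin.symm b).1 := by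
      ext x
      rw [← Finset.mem_toList, ← Finset.mem_toList]
      exact h1.mem_iff
    exact 𝒮.equivFin.symm.injective (Subtype.ext h2)
  calc 2 ^ l.toFinset.card = l.toFinset.powerset.card := (Finset.card_powerset _).symm
    _ = ∑ s ∈ Finset.range (r + 1),
        (l.toFinset.powerset.filter fun S => wt w S.toList = s).card := by
        apply Finset.card_eq_sum_card_fiberwise
        intro S hS
        exact Finset.mem_coe.2 (Finset.mem_range.2 (Nat.lt_succ_iff.2 (hwt S hS)))
    _ ≤ ∑ _s ∈ Finset.range (r + 1), D := Finset.sum_le_sum hfib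
    _ = (r + 1) * D := by rw [Finset.sum_const, Finset.card_range, smul_eq_mul]

/-- PROOF. `ν` from `exists_val` (row A0). By `span_irred` it is enough to bound the length of an irreducible `l'` with `wt w l' = wt w l ≤ r`: every letter occurs at most `p - 1` times (`red_pow`), so `l'.length ≤ (p - 1) * l'.toFinset.card`
(`List.length_eq_sum_count`-like: `Multiset.toFinset_sum_count_eq`), and `2 ^ l'.toFinset.card ≤ (r + 1) * D < 2 ^ K` gives `l'.toFinset.card ≤ K`. -/
theorem FOp.short_span [Fintype J] {p : ℕ} (hp : 2 ≤ p) {F : ℕ → Submodule k V} {w : J → ℕ}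
    {β : J → V →ₗ[k] V} {r : ℕ} (h : FOp p F w β r) {u : V} {i : ℕ} (hu : u ∈ F i) (D K : ℕ)
    (hD : ∀ s ≤ r, ∀ (m : ℕ) (l : Fin m → List J), (∀ a, wt w (l a) = s) →
      (∀ c : Fin m → k, ∑ a, c a • act β (l a) u ∈ F (i + s + 1) → c = 0) → m ≤ D)
    (hK : (r + 1) * D < 2 ^ K) (l : List J) (hr : wt w l ≤ r) :
    act β l u ∈ Submodule.span k {v | ∃ l' : List J, wt w l' = wt w l ∧ l'.length ≤ (p - 1) * K ∧
      v = act β l' u} ⊔ F (i + wt w l + 1) := by
  classical
  obtain ⟨ν, hν⟩ := exists_val J r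
  refine (sup_le ?_ le_sup_right : _ ≤ Submodule.span k {v | ∃ l' : List J,
    wt w l' = wt w l ∧ l'.length ≤ (p - 1) * K ∧ v = act β l' u} ⊔ F (i + wt w l + 1))
    (h.span_irred ν u i l)
  rw [Submodule.span_le]
  rintro v ⟨l', h1, h2, rfl⟩
  refine Submodule.mem_sup_left (Submodule.subset_span ⟨l', h1, ?_, rfl⟩)
  have hr' : wt w l' ≤ r := by rw [h1]; exact hr
  have h3 := h.two_pow_le hν hu D hD l' hr' h2
  have h4 : l'.toFinset.card < K :=
    (Nat.pow_lt_pow_iff_right (by norm_num : 1 < 2)).1 (lt_of_le_of_lt h3 hK)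
  have h5 : ∀ j ∈ l'.toFinset, l'.count j ≤ p - 1 := by
    intro j _
    by_contra h6
    exact h2 (h.red_pow hp hν hu j (by omega) hr')
  have h6 : l'.length = ∑ j ∈ l'.toFinset, l'.count j := by
    have h7 := Multiset.toFinset_sum_count_eq (l' : Multiset J)
    simpa using h7.symm
  rw [h6]
  calc ∑ j ∈ l'.toFinset, l'.count j ≤ ∑ _j ∈ l'.toFinset, (p - 1) := Finset.sum_le_sum h5
    _ = l'.toFinset.card * (p - 1) := by rw [Finset.sum_const, smul_eq_mul]
    _ ≤ K * (p - 1) := Nat.mul_le_mul_right _ h4.le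
    _ = (p - 1) * K := Nat.mul_comm _ _

end ALQ
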