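import Pool.Agent.ALG.Defs

/-!
# [ALQ] automorphic growth and the powers of the augmentation ideal (MP_893f58_al): definitions
-/

set_option autoImplicit false

namespace ALQ

open AG ALG

section

variable {k V J : Type*} [Field k] [AddCommGroup V] [Module k V]

/-- apply the operators of the list, the last one first -/
def act (β : J → V →ₗ[k] V) : List J → V → V
  | [], u => u
  | j :: l, u => β j (act β l u)

/-- the sum of the `w j` over the letters of the list -/
def wt (w : J → ℕ) (l : List J) : ℕ := (l.map w).sum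

/-- operators `β j` of weight `w j` on a filtered vector space; the commutators (and the `p`-th powers) of the operators are linear combinations of the operators, up to terms of higher
filtration, as long as the weights are at most `r` -/
structure FOp [Fintype J] (p : ℕ) (F : ℕ → Submodule k V) (w : J → ℕ) (β : J → V →ₗ[k] V)
    (r : ℕ) : Prop where
  anti : ∀ n, F (n + 1) ≤ F n
  pos : ∀ j, 1 ≤ w j
  map : ∀ j n, ∀ v ∈ F n, β j v ∈ F (n + w j)
  comm : ∀ i j, w i + w j ≤ r → ∃ c : J → k, (∀ l, c l ≠ 0 → w l = w i + w j) ∧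
    ∀ n, ∀ v ∈ F n, β i (β j v) - β j (β i v) - ∑ l, c l • β l v ∈ F (n + (w i + w j) + 1)
  pow : ∀ j, p * w j ≤ r → ∃ c : J → k, (∀ l, c l ≠ 0 → w l = p * w j) ∧
    ∀ n, ∀ v ∈ F n, act β (List.replicate p j) v - ∑ l, c l • β l v ∈ F (n + p * w j + 1)

/-- `wt ν` compares the lists of length at most `r` first by the length, and it determines the multiset of the letters -/
structure Val (ν : J → ℕ) (r : ℕ) : Prop where
  lt : ∀ l l' : List J, l'.length ≤ r → l.length < l'.length → wt ν l < wt ν l'
  inj : ∀ l l' : List J, l.length ≤ r → l'.length ≤ r → wt ν l = wt ν l' → l.Perm l'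

/-- the span of the `act β l u` with weight `s` and value less than `m`, and `F (i + s + 1)` -/
def Wm (F : ℕ → Submodule k V) (w ν : J → ℕ) (β : J → V →ₗ[k] V) (u : V) (i s m : ℕ) :
    Submodule k V :=
  Submodule.span k {v | ∃ l : List J, wt w l = s ∧ wt ν l < m ∧ v = act β l u} ⊔ F (i + s + 1)

/-- reducible lists -/
def Red (F : ℕ → Submodule k V) (w ν : J → ℕ) (β : J → V →ₗ[k] V) (u : V) (i : ℕ)
    (l : List J) : Prop :=
  act β l u ∈ Wm F w ν β u i (wt w l) (wt ν l)

/-- the list with the letter `j` exactly `a j` times -/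
noncomputable def std [Fintype J] (a : J → ℕ) : List J :=
  (Finset.univ : Finset J).toList.flatMap fun j => List.replicate (a j) j

end

section

variable {H : Type*} [Group H]

/-- the filtration of the group algebra by the powers of the augmentation ideal -/
noncomputable def FF (p : ℕ) (H : Type*) [Group H] :
    ℕ → Submodule (ZMod p) (MonoidAlgebra (ZMod p) H)
  | 0 => ⊤
  | n + 1 => (aug p H) ^ (n + 1)

/-- `x - 1` in the group algebra -/
noncomputable def dl (p : ℕ) (x : H) : MonoidAlgebra (ZMod p) H :=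
  MonoidAlgebra.of (ZMod p) H x - 1

/-- the words of weight `n` in the generators, formed with commutators and `p`-th powers -/
inductive WD (p : ℕ) (T : Finset H) : ℕ → H → Prop
  | gen (t : H) (ht : t ∈ T) : WD p T 1 t
  | comm {i j : ℕ} {x y : H} (hx : WD p T i x) (hy : WD p T j y) :
      WD p T (i + j) (x * y * x⁻¹ * y⁻¹)
  | pow {i : ℕ} {x : H} (hx : WD p T i x) : WD p T (p * i) (x ^ p)

/-- the span of the `x - 1`, `x` a word of weight `n`, and the next power of the augmentation ideal -/
noncomputable def NN (p : ℕ) (T : Finset H) (n : ℕ) :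
    Submodule (ZMod p) (MonoidAlgebra (ZMod p) H) :=
  Submodule.span (ZMod p) {a | ∃ x, WD p T n x ∧ a = dl p x} ⊔ FF p H (n + 1)

/-- the dimension of `NN n` modulo `FF (n + 1)` -/
noncomputable def mm (p : ℕ) (T : Finset H) (n : ℕ) : ℕ :=
  Module.finrank (ZMod p) ((NN p T n).map (FF p H (n + 1)).mkQ)

/-- `v ↦ v b - b v` -/
noncomputable def adj (p : ℕ) (b : MonoidAlgebra (ZMod p) H) :
    MonoidAlgebra (ZMod p) H →ₗ[ZMod p] MonoidAlgebra (ZMod p) H :=
  LinearMap.mulRight (ZMod p) b - LinearMap.mulLeft (ZMod p) b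

/-- every element of `NN n` is `g - 1` modulo `FF (n + 1)`, with `g` of length at most `L` -/
def Sh (p : ℕ) (T : Finset H) (n L : ℕ) : Prop :=
  ∀ z ∈ NN p T n, ∃ g ∈ ball T L, dl p g - z ∈ FF p H (n + 1)

/-- `û` is a word of weight `i = h`, or the `p`-th power of a word and of weight `i > h` -/
def Head (p : ℕ) (T : Finset H) (h i : ℕ) (x : H) : Prop :=
  (i = h ∧ WD p T h x) ∨ (h < i ∧ ∃ (i' : ℕ) (y : H), i = p * i' ∧ WD p T i' y ∧ x = y ^ p)

end

end ALQ
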