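import Pool.Agent.ALQ.Defs
import Pool.Agent.ALG.P7b

/-!
# [ALQ-G1] the filtration of the group algebra
-/

set_option autoImplicit false

namespace ALQ

open AG ALG

variable {H : Type*} [Group H]

theorem g1_right (p : ℕ) (n : ℕ) (u : MonoidAlgebra (ZMod p) H) {a : MonoidAlgebra (ZMod p) H}
    (ha : a ∈ (aug p H) ^ (n + 1)) : a * u ∈ (aug p H) ^ (n + 1) := by
  induction u using MonoidAlgebra.induction_on with
  | of h => exact mul_of_mem p n h ha
  | add x y hx hy => rw [mul_add]; exact Submodule.add_mem _ hx hy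
  | smul r x hx => rw [mul_smul_comm]; exact Submodule.smul_mem _ _ hx

/-- PROOF. `aug_pow_anti` (or `le_top`). -/
theorem FF_anti (p : ℕ) (n : ℕ) : FF p H (n + 1) ≤ FF p H n := by
  rcases n with _ | n
  · exact le_top
  · exact aug_pow_anti p (Nat.le_succ n)

theorem FF_le (p : ℕ) {m n : ℕ} (h : m ≤ n) : FF p H n ≤ FF p H m := by
  exact antitone_nat_of_succ_le (fun n => FF_anti p n) h

/-- PROOF. If `m, n ≥ 1`: `pow_add`, `Submodule.mul_mem_mul`. If `m = 0` (or `n = 0`): `aug ^ n` is a left (right) ideal, `p7b_left` and its analogue on the right (`mul_of_mem`). -/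
theorem FF_mul (p : ℕ) {m n : ℕ} {a b : MonoidAlgebra (ZMod p) H} (ha : a ∈ FF p H m)
    (hb : b ∈ FF p H n) : a * b ∈ FF p H (m + n) := by
  rcases m with _ | m
  · rcases n with _ | n
    · exact Submodule.mem_top
    · rw [Nat.zero_add]
      exact p7b_left p n a hb
  · rcases n with _ | n
    · exact g1_right p m b ha
    · show a * b ∈ (aug p H) ^ (m + 1 + (n + 1))
      rw [pow_add]
      exact Submodule.mul_mem_mul ha hb

theorem dl_mem_one (p : ℕ) (x : H) : dl p x ∈ FF p H 1 := by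
  show MonoidAlgebra.of (ZMod p) H x - 1 ∈ (aug p H) ^ (0 + 1)
  rw [zero_add, pow_one]
  exact p6_sub_one p x

/-- PROOF. Induction on `k` with `FF_mul` (`a ^ 0 = 1 ∈ FF 0 = ⊤`). -/
theorem FF_pow (p : ℕ) {n : ℕ} {a : MonoidAlgebra (ZMod p) H} (ha : a ∈ FF p H n) (k : ℕ) :
    a ^ k ∈ FF p H (k * n) := by
  induction k with
  | zero =>
    rw [Nat.zero_mul]
    exact Submodule.mem_top
  | succ k ih =>
    rw [pow_succ, Nat.succ_mul]
    exact FF_mul p ih ha

end ALQ
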