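import Pool.Agent.ALQ.G1
import Pool.Agent.ALG.P3

/-!
# [ALQ-G8] automorphisms acting trivially on the first layer
-/

set_option autoImplicit false

namespace ALQ

open AG ALG

variable {H : Type*} [Group H]

/-- the algebra endomorphism induced by an automorphism -/
noncomputable def g8Φ (p : ℕ) (φ : MulAut H) :
    MonoidAlgebra (ZMod p) H →ₐ[ZMod p] MonoidAlgebra (ZMod p) H :=
  MonoidAlgebra.lift (ZMod p) (MonoidAlgebra (ZMod p) H) H
    ((MonoidAlgebra.of (ZMod p) H).comp φ.toMonoidHom)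

theorem g8Φ_of (p : ℕ) (φ : MulAut H) (x : H) :
    g8Φ p φ (MonoidAlgebra.of (ZMod p) H x) = MonoidAlgebra.of (ZMod p) H (φ x) := by
  unfold g8Φ
  rw [MonoidAlgebra.lift_of]
  rfl

theorem g8Φ_dl (p : ℕ) (φ : MulAut H) (x : H) : g8Φ p φ (dl p x) = dl p (φ x) := by
  unfold dl
  rw [map_sub, map_one, g8Φ_of]

theorem g8_map1 (p : ℕ) (φ : MulAut H) {a : MonoidAlgebra (ZMod p) H}
    (ha : a ∈ aug p H) : g8Φ p φ a ∈ aug p H := by
  unfold aug at ha
  induction ha using Submodule.span_induction with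
  | mem x hx =>
    obtain ⟨h, rfl⟩ := hx
    have h1 := g8Φ_dl p φ h
    unfold dl at h1
    show g8Φ p φ (MonoidAlgebra.of (ZMod p) H h - 1) ∈ aug p H
    rw [h1]
    exact p6_sub_one p _
  | zero => rw [map_zero]; exact Submodule.zero_mem _
  | add x y _ _ hx hy => rw [map_add]; exact Submodule.add_mem _ hx hy
  | smul r x _ hx => rw [map_smul]; exact Submodule.smul_mem _ _ hx

theorem g8_map (p : ℕ) (φ : MulAut H) (n : ℕ) {a : MonoidAlgebra (ZMod p) H}
    (ha : a ∈ (aug p H) ^ (n + 1)) : g8Φ p φ a ∈ (aug p H) ^ (n + 1) := by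
  induction n generalizing a with
  | zero =>
    rw [zero_add, pow_one] at ha ⊢
    exact g8_map1 p φ ha
  | succ n ih =>
    rw [pow_succ] at ha ⊢
    induction ha using Submodule.mul_induction_on' with
    | mem_mul_mem x hx y hy =>
      rw [map_mul]
      exact Submodule.mul_mem_mul (ih hx) (g8_map1 p φ hy)
    | add x _ y _ hx hy => rw [map_add]; exact Submodule.add_mem _ hx hy

theorem g8_sub {p : ℕ} (hp : p.Prime) (φ : MulAut H) (h : ∀ x : H, φ x * x⁻¹ ∈ PS H p 1)
    {a : MonoidAlgebra (ZMod p) H} (ha : a ∈ aug p H) : g8Φ p φ a - a ∈ (aug p H) ^ 2 := by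
  unfold aug at ha
  induction ha using Submodule.span_induction with
  | mem x hx =>
    obtain ⟨y, rfl⟩ := hx
    have h1 : g8Φ p φ (MonoidAlgebra.of (ZMod p) H y - 1) - (MonoidAlgebra.of (ZMod p) H y - 1) =
        (MonoidAlgebra.of (ZMod p) H (φ y * y⁻¹) - 1) * MonoidAlgebra.of (ZMod p) H y := by
      rw [map_sub, map_one, g8Φ_of, sub_mul, one_mul, ← map_mul, inv_mul_cancel_right]
      abel
    show g8Φ p φ (MonoidAlgebra.of (ZMod p) H y - 1) - (MonoidAlgebra.of (ZMod p) H y - 1) ∈ _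
    rw [h1]
    exact mul_of_mem p 1 y (PS_sub_one_mem p hp 1 (h y))
  | zero => rw [map_zero, sub_zero]; exact Submodule.zero_mem _
  | add x y _ _ hx hy =>
    have h1 : g8Φ p φ (x + y) - (x + y) = (g8Φ p φ x - x) + (g8Φ p φ y - y) := by
      rw [map_add]
      abel
    rw [h1]
    exact Submodule.add_mem _ hx hy
  | smul r x _ hx =>
    rw [map_smul, ← smul_sub]
    exact Submodule.smul_mem _ _ hx

theorem g8_main {p : ℕ} (hp : p.Prime) (φ : MulAut H) (h : ∀ x : H, φ x * x⁻¹ ∈ PS H p 1) (n : ℕ)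
    {a : MonoidAlgebra (ZMod p) H} (ha : a ∈ (aug p H) ^ (n + 1)) :
    g8Φ p φ a - a ∈ (aug p H) ^ (n + 2) := by
  induction n generalizing a with
  | zero =>
    rw [zero_add, pow_one] at ha
    exact g8_sub hp φ h ha
  | succ n ih =>
    rw [pow_succ] at ha
    induction ha using Submodule.mul_induction_on' with
    | mem_mul_mem x hx y hy =>
      have h1 : g8Φ p φ (x * y) - x * y = (g8Φ p φ x - x) * g8Φ p φ y + x * (g8Φ p φ y - y) := by
        rw [map_mul, sub_mul, mul_sub]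
        abel
      rw [h1]
      have hy2 : g8Φ p φ y ∈ aug p H := g8_map1 p φ hy
      refine Submodule.add_mem _ ?_ ?_
      · have h2 := Submodule.mul_mem_mul (ih hx) hy2
        rw [← pow_succ] at h2
        exact h2
      · have h2 := Submodule.mul_mem_mul hx (g8_sub hp φ h hy)
        rw [← pow_add] at h2
        exact h2
    | add x _ y _ hx hy =>
      have h1 : g8Φ p φ (x + y) - (x + y) = (g8Φ p φ x - x) + (g8Φ p φ y - y) := by
        rw [map_add]
        abel
      rw [h1]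
      exact Submodule.add_mem _ hx hy

/-- PROOF. Let `Φ` be the algebra endomorphism of the group algebra induced by `φ` (`MonoidAlgebra.mapDomainAlgHom` or `MonoidAlgebra.lift`), `Φ (dl x) = dl (φ x)`. (1) `Φ` maps `aug` into `aug`, so `aug^n` into `aug^n`. (2) For `a ∈ aug ^ n`, `n ≥ 1`: `Φ a - a ∈ aug ^ (n + 1)`,
by induction: for `n = 1`, `a = dl h`: `dl (φ h) - dl h = (φ h * h⁻¹ - 1) h`, and `φ h * h⁻¹ ∈ PS 1`, so `PS_sub_one_mem` (with `i = 1`) and `mul_of_mem`; step: for a product `a b`, `a ∈ aug`, `b ∈ aug ^ n`: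
`Φ a Φ b - a b = (Φ a - a) Φ b + a (Φ b - b)`. -/
theorem aut_trivial {p : ℕ} (hp : p.Prime) (φ : MulAut H) (h : ∀ x : H, φ x * x⁻¹ ∈ PS H p 1) {n : ℕ}
    (hn : 1 ≤ n) {g : H} (hg : dl p g ∈ FF p H n) : dl p (φ g) - dl p g ∈ FF p H (n + 1) := by
  obtain ⟨m, rfl⟩ : ∃ m, n = m + 1 := ⟨n - 1, by omega⟩
  have h1 := g8_main hp φ h m (a := dl p g) hg
  rw [g8Φ_dl] at h1
  exact h1

end ALQ
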