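import Pool.Agent.ALQ.G5
import Pool.Agent.ALQ.G8
import Pool.Agent.ALG.P2
import Pool.Agent.ALG.A2

/-!
# [ALQ-G9] layers and automorphic growth
-/

set_option autoImplicit false

namespace ALQ

open AG ALG

variable {H : Type*} [Group H]

/-- PROOF. `𝔸` of `PS_fi` (with `PS_finiteIndex`, `i = 0`: `φ x * x⁻¹ ∈ PS 1` for all `x`), `q = 𝔸.index`. For `c : Fin (mm n) → ZMod p` let `g c ∈ ball T L` with `dl (g c) = ∑ c j • dl (b j)` modulo `FF (n + 1)` (`b` of `exists_basis`; the sum is in `NN n`, so `dl (g c) ∈ FF n`). If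
`φ (g c) = g c'`, `φ ∈ 𝔸`, then `dl (g c) = dl (g c')` modulo `FF (n + 1)` (`aut_trivial`), so `c = c'` (`exists_basis`). `le_autGrowth_fi`, `Nat.card (Fin m → ZMod p) = p ^ m`. -/
theorem pow_le_autGrowth {p : ℕ} (hp : p.Prime) (T : Finset H)
    (hT : Subgroup.closure (T : Set H) = ⊤) : ∃ q : ℕ, ∀ n L : ℕ, 1 ≤ n → Sh p T n L →
      p ^ mm p T n ≤ q * autGrowth T L := by
  have : Fact p.Prime := ⟨hp⟩
  have : Group.FG H := ⟨⟨T, hT⟩⟩
  obtain ⟨𝔸, h𝔸, hφ⟩ := PS_fi (H := H) p (PS_finiteIndex p hp 1)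
  refine ⟨𝔸.index, fun n L hn hS => ?_⟩
  obtain ⟨b, hb1, hb2, hb3⟩ := exists_basis hp T n
  have hs : ∀ c : Fin (mm p T n) → ZMod p, ∑ j, c j • dl p (b j) ∈ NN p T n := fun c =>
    Submodule.sum_mem _ fun j _ => Submodule.smul_mem _ _ (hb1 j).mem_NN
  have h1 : ∀ c : Fin (mm p T n) → ZMod p, ∃ g ∈ ball T L,
      dl p g - ∑ j, c j • dl p (b j) ∈ FF p H (n + 1) := fun c => hS _ (hs c)
  choose g hg1 hg2 using h1
  have h2 : ∀ c, dl p (g c) ∈ FF p H n := by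
    intro c
    have h3 := Submodule.add_mem _ (FF_anti p n (hg2 c)) (NN_le hp T n (hs c))
    rwa [sub_add_cancel] at h3
  have h3 := le_autGrowth_fi T 𝔸 L g hg1 (by
    rintro c c' ⟨φ, hφ1, hφ2⟩
    have h4 : ∀ x : H, φ x * x⁻¹ ∈ PS H p 1 := fun x => hφ φ hφ1 0 x (Subgroup.mem_top x)
    have h5 := aut_trivial hp φ h4 hn (h2 c)
    rw [hφ2] at h5
    have h6 : ∑ j, (c j - c' j) • dl p (b j) ∈ FF p H (n + 1) := by
      have h7 : ∑ j, (c j - c' j) • dl p (b j) =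
          (dl p (g c') - ∑ j, c' j • dl p (b j)) - (dl p (g c) - ∑ j, c j • dl p (b j)) -
            (dl p (g c') - dl p (g c)) := by
        simp only [sub_smul, Finset.sum_sub_distrib]
        abel
      rw [h7]
      exact Submodule.sub_mem _ (Submodule.sub_mem _ (hg2 c') (hg2 c)) h5
    have h8 := hb3 _ h6
    funext j
    exact sub_eq_zero.1 (congrFun h8 j))
  have h4 : Nat.card (Fin (mm p T n) → ZMod p) = p ^ mm p T n := by
    rw [Nat.card_fun, Nat.card_zmod, Nat.card_eq_fintype_card, Fintype.card_fin]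
  rw [h4] at h3
  exact h3

end ALQ
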