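import Pool.Agent.ALQ.G7
import Pool.Agent.ALQ.G9
import Pool.Agent.ALG.P5

/-!
# [ALQ-G10] the first bound for the dimensions
-/

set_option autoImplicit false

namespace ALQ

open AG ALG

variable {H : Type*} [Group H]

/-- PROOF. `exists_rep` with `X` = the words of weight `n`, `L = (p + 4)^n` (`WD.ball`), and `pow_le_autGrowth`: `2 ^ mm n ≤ p ^ mm n ≤ q C (p (mm n) (p + 4)^n + 1)^d`. With `i = n - 1`, `A = p * (p + 4)`: `p (mm n) (p + 4)^n ≤ A^(i + 1) (mm n + 1)`, apply `p5_arith` (with `m = q C`). -/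
theorem mm_linear {p : ℕ} (hp : p.Prime) (T : Finset H)
    (hT : Subgroup.closure (T : Set H) = ⊤) (h : PolyBdd (autGrowth T)) :
    ∃ K : ℕ, ∀ n, 1 ≤ n → mm p T n ≤ K * n := by
  obtain ⟨q, hq⟩ := pow_le_autGrowth hp T hT
  obtain ⟨C, d, hC⟩ := h
  obtain ⟨K, hK⟩ := p5_arith (q * C) (p * (p + 4)) d
  refine ⟨K, fun n hn => ?_⟩
  have h1 := exists_rep hp T hn {x | WD p T n x} ((p + 4) ^ n)
    (fun g hg => ⟨WD.mem_NN hg, WD.ball hp hg⟩) le_rfl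
  have h2 := hq n _ hn h1
  have h3 := hC (p * mm p T n * (p + 4) ^ n)
  obtain ⟨i, rfl⟩ : ∃ i, n = i + 1 := ⟨n - 1, by omega⟩
  apply hK
  have h4 : 2 ^ mm p T (i + 1) ≤ p ^ mm p T (i + 1) := Nat.pow_le_pow_left hp.two_le _
  have h5 : p * mm p T (i + 1) * (p + 4) ^ (i + 1) ≤
      (p * (p + 4)) ^ (i + 1) * (mm p T (i + 1) + 1) := by
    rw [mul_pow]
    have h6 : p ≤ p ^ (i + 1) := Nat.le_self_pow (by omega) p
    calc p * mm p T (i + 1) * (p + 4) ^ (i + 1)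
        ≤ p ^ (i + 1) * (mm p T (i + 1) + 1) * (p + 4) ^ (i + 1) :=
          Nat.mul_le_mul_right _ (Nat.mul_le_mul h6 (Nat.le_succ _))
      _ = _ := by ring
  calc 2 ^ mm p T (i + 1) ≤ q * autGrowth T (p * mm p T (i + 1) * (p + 4) ^ (i + 1)) :=
        h4.trans h2
    _ ≤ q * (C * (p * mm p T (i + 1) * (p + 4) ^ (i + 1) + 1) ^ d) := Nat.mul_le_mul_left _ h3
    _ ≤ q * (C * ((p * (p + 4)) ^ (i + 1) * (mm p T (i + 1) + 1) + 1) ^ d) :=
        Nat.mul_le_mul_left _ (Nat.mul_le_mul_left _ (Nat.pow_le_pow_left (by omega) _))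
    _ = _ := by ring

end ALQ
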