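import Pool.Agent.ALQ.G4

/-!
# [ALQ-G11] left normed commutators
-/

set_option autoImplicit false

namespace ALQ

open AG ALG

variable {H : Type*} [Group H]

/-- the span of the left normed commutators -/
noncomputable def g11C (p : ℕ) (T : Finset H) (n : ℕ) :
    Submodule (ZMod p) (MonoidAlgebra (ZMod p) H) :=
  Submodule.span (ZMod p) {a | ∃ z' ∈ NN p T (n - 1), ∃ t ∈ T, a = z' * dl p t - dl p t * z'} ⊔
    FF p H (n + 1)

theorem adj_apply (p : ℕ) (b v : MonoidAlgebra (ZMod p) H) : adj p b v = v * b - b * v := rfl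

theorem adj_pow {p : ℕ} (hp : p.Prime) (b v : MonoidAlgebra (ZMod p) H) :
    ((adj p b) ^ p) v = v * b ^ p - b ^ p * v := by
  have : Fact p.Prime := ⟨hp⟩
  have hch : CharP (Module.End (ZMod p) (MonoidAlgebra (ZMod p) H)) p :=
    charP_of_injective_algebraMap (algebraMap (ZMod p) _).injective p
  have h1 : (adj p b) ^ p =
      LinearMap.mulRight (ZMod p) (b ^ p) - LinearMap.mulLeft (ZMod p) (b ^ p) := by
    have h2 : Commute (LinearMap.mulRight (ZMod p) b) (LinearMap.mulLeft (ZMod p) b) :=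
      (LinearMap.commute_mulLeft_right (R := ZMod p) b b).symm
    have h3 := sub_pow_char_of_commute (p := p) h2
    rw [LinearMap.pow_mulRight, LinearMap.pow_mulLeft] at h3
    exact h3
  rw [h1]
  rfl

theorem adj_pow_mem {p : ℕ} (hp : p.Prime) {T : Finset H} {i j : ℕ}
    {z y : MonoidAlgebra (ZMod p) H} (hz : z ∈ NN p T i) (hy : y ∈ NN p T j) (k : ℕ) :
    ((adj p y) ^ k) z ∈ NN p T (i + k * j) := by
  induction k with
  | zero =>
    rw [zero_mul, add_zero]
    exact hz
  | succ k ih =>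
    rw [pow_succ']
    have h := NN_comm hp ih hy
    have e : i + (k + 1) * j = i + k * j + j := by ring
    rw [e]
    exact h

theorem g11_main {p : ℕ} (hp : p.Prime) (T : Finset H) {j : ℕ} {y : H} (hy : WD p T j y) :
    ∀ (i : ℕ), 1 ≤ i → ∀ (z : MonoidAlgebra (ZMod p) H), z ∈ NN p T i →
      z * dl p y - dl p y * z ∈ g11C p T (i + j) := by
  induction hy with
  | gen t ht =>
    intro i hi z hz
    refine Submodule.mem_sup_left (Submodule.subset_span ⟨z, ?_, t, ht, rfl⟩)
    rw [Nat.add_sub_cancel]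
    exact hz
  | @comm j' j'' y' y'' h1 h2 ih1 ih2 =>
    intro i hi z hz
    obtain ⟨e, he⟩ : ∃ e, e = dl p (y' * y'' * y'⁻¹ * y''⁻¹) -
        (dl p y' * dl p y'' - dl p y'' * dl p y') := ⟨_, rfl⟩
    have he1 : e ∈ FF p H (j' + j'' + 1) := by
      rw [he]
      exact dl_comm p (h1.mem hp) (h2.mem hp)
    have hz1 := NN_comm hp hz h1.mem_NN
    have hz2 := NN_comm hp hz h2.mem_NN
    have h3 := ih2 (i + j') (by omega) _ hz1
    have h4 := ih1 (i + j'') (by omega) _ hz2
    have e1 : i + j' + j'' = i + (j' + j'') := by ring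
    have e2 : i + j'' + j' = i + (j' + j'') := by ring
    rw [e1] at h3
    rw [e2] at h4
    have h5 : z * e - e * z ∈ g11C p T (i + (j' + j'')) := by
      refine Submodule.mem_sup_right (Submodule.sub_mem _ ?_ ?_)
      · have h6 := FF_mul p (NN_le hp T i hz) he1
        have e3 : i + (j' + j'' + 1) = i + (j' + j'') + 1 := by ring
        rw [e3] at h6
        exact h6
      · have h6 := FF_mul p he1 (NN_le hp T i hz)
        have e3 : j' + j'' + 1 + i = i + (j' + j'') + 1 := by ring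
        rw [e3] at h6
        exact h6
    have h7 : z * dl p (y' * y'' * y'⁻¹ * y''⁻¹) - dl p (y' * y'' * y'⁻¹ * y''⁻¹) * z =
        ((z * dl p y' - dl p y' * z) * dl p y'' - dl p y'' * (z * dl p y' - dl p y' * z)) -
        ((z * dl p y'' - dl p y'' * z) * dl p y' - dl p y' * (z * dl p y'' - dl p y'' * z)) +
        (z * e - e * z) := by
      rw [he]
      noncomm_ring
    rw [h7]
    exact Submodule.add_mem _ (Submodule.sub_mem _ h3 h4) h5
  | @pow j' y' h1 ih1 =>
    intro i hi z hz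
    rw [dl_pow_char p hp, ← adj_pow hp]
    have h2 := adj_pow_mem hp hz h1.mem_NN (p - 1)
    have h3 := ih1 (i + (p - 1) * j') (by omega) _ h2
    have e1 : i + (p - 1) * j' + j' = i + p * j' := by
      obtain ⟨q, rfl⟩ : ∃ q, p = q + 1 := ⟨p - 1, by have := hp.two_le; omega⟩
      rw [Nat.add_sub_cancel]
      ring
    have e2 : (adj p (dl p y')) ^ p = (adj p (dl p y')) ^ (p - 1 + 1) := by
      rw [Nat.sub_add_cancel hp.one_le]
    rw [e2, pow_succ']
    rw [e1] at h3
    exact h3

/-- PROOF. Induction on the word `y` (for all `i` and `z`). Write `C n` for the right side (with `i + j = n`). `y = t`: a generator of `C`. `y = y' y'' y'⁻¹ y''⁻¹` (weights `j', j''`): `dl y = [Y', Y'']` modulo `FF (j + 1)` (`dl_comm`; `[a, b] = a b - b a`), and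
`[z, [Y', Y'']] = [[z, Y'], Y''] - [[z, Y''], Y']` with `[z, Y'] ∈ NN (i + j')` (`NN_comm`), so the induction hypothesis for `y''` (and for `y'`) applies. `y = y' ^ p`: `dl y = Y' ^ p` (`dl_pow_char`) and `[z, Y' ^ p] = [[...[z, Y'], ...], Y']` (`p` times;
characteristic `p`: the right and left multiplications by `Y'` commute, `sub_pow_char_of_commute` in the ring of linear maps, or `Commute.sub_pow...`); the inner `p - 1` times commutator is in `NN (i + (p - 1) j')`, apply the induction hypothesis for `y'`. -/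
theorem comm_word_mem {p : ℕ} (hp : p.Prime) (T : Finset H) {j : ℕ} {y : H} (hy : WD p T j y) (i : ℕ)
    (hi : 1 ≤ i) (z : MonoidAlgebra (ZMod p) H) (hz : z ∈ NN p T i) :
    z * dl p y - dl p y * z ∈
      Submodule.span (ZMod p) {a | ∃ z' ∈ NN p T (i + j - 1), ∃ t ∈ T,
        a = z' * dl p t - dl p t * z'} ⊔ FF p H (i + j + 1) := by
  exact g11_main hp T hy i hi z hz

/-- PROOF. A word of weight `n ≥ 2` is the `p`-th power of a word of weight `n / p`, or `x y x⁻¹ y⁻¹`, and then `dl = [dl x, dl y]` modulo `FF (n + 1)`, use `comm_word_mem` with `z = dl x`. -/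
theorem NN_step {p : ℕ} (hp : p.Prime) (T : Finset H) {n : ℕ} (hn : 2 ≤ n) :
    NN p T n ≤ Submodule.span (ZMod p)
      ({a | ∃ (i : ℕ) (y : H), p * i = n ∧ WD p T i y ∧ a = dl p (y ^ p)} ∪
        {a | ∃ z ∈ NN p T (n - 1), ∃ t ∈ T, a = z * dl p t - dl p t * z}) ⊔ FF p H (n + 1) := by
  rw [NN]
  refine sup_le ?_ le_sup_right
  rw [Submodule.span_le]
  rintro a ⟨x, hx, rfl⟩
  have key : g11C p T n ≤ Submodule.span (ZMod p)
      ({a | ∃ (i : ℕ) (y : H), p * i = n ∧ WD p T i y ∧ a = dl p (y ^ p)} ∪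
        {a | ∃ z ∈ NN p T (n - 1), ∃ t ∈ T, a = z * dl p t - dl p t * z}) ⊔ FF p H (n + 1) :=
    sup_le_sup_right (Submodule.span_mono Set.subset_union_right) _
  cases hx with
  | gen t ht => omega
  | @comm i j x y h1 h2 =>
    have h3 := key (g11_main hp T h2 i (h1.pos hp) _ h1.mem_NN)
    have h4 := Submodule.mem_sup_right (S := Submodule.span (ZMod p)
      ({a | ∃ (i' : ℕ) (y : H), p * i' = i + j ∧ WD p T i' y ∧ a = dl p (y ^ p)} ∪
        {a | ∃ z ∈ NN p T (i + j - 1), ∃ t ∈ T, a = z * dl p t - dl p t * z}))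
      (dl_comm p (h1.mem hp) (h2.mem hp))
    have h5 := Submodule.add_mem _ h4 h3
    rw [sub_add_cancel] at h5
    exact h5
  | @pow i y h1 =>
    exact Submodule.mem_sup_left (Submodule.subset_span (Or.inl ⟨i, y, rfl, h1, rfl⟩))

end ALQ
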