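import Pool.Agent.ALQ.A1
import Pool.Agent.ALQ.G11

/-!
# [ALQ-G12] left normed commutators with a head
-/

set_option autoImplicit false

namespace ALQ

open AG ALG

variable {H : Type*} [Group H]

/-- PROOF. Induction on `n ≥ h`. `n = h`: `NN h` is spanned by the `dl x`, `x` a word of weight `h` (`Head` with `i = h`, `τ = []`) and `FF (h + 1)`. Step `n ≥ h + 1 ≥ 2`: `NN_step`: the generators `dl (y ^ p)` are of the form with `i = n`, `τ = []`; for `z ∈ NN (n - 1)`, `t ∈ T`: by the
induction hypothesis `z` is a linear combination of `act _ τ (dl x)` modulo `FF n`, and `z * dl t - dl t * z = adj (dl t) z` is the combination of the `act _ (t :: τ) (dl x)` modulo `FF (n + 1)` (`FF_mul`). -/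
theorem NN_heads {p : ℕ} (hp : p.Prime) [Fact p.Prime] (T : Finset H) (h : ℕ) (hh : 1 ≤ h) (n : ℕ) (hn : h ≤ n) :
    NN p T n ≤ Submodule.span (ZMod p)
      {a | ∃ (i : ℕ) (x : H) (τ : List H), Head p T h i x ∧ (∀ t ∈ τ, t ∈ T) ∧
        i + τ.length = n ∧ a = act (fun t : H => adj p (dl p t)) τ (dl p x)} ⊔ FF p H (n + 1) := by
  induction n, hn using Nat.le_induction with
  | base =>
    rw [NN]
    refine sup_le ?_ le_sup_right
    rw [Submodule.span_le]
    rintro a ⟨x, hx, rfl⟩
    exact Submodule.mem_sup_left (Submodule.subset_span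
      ⟨h, x, [], Or.inl ⟨rfl, hx⟩, fun t ht => absurd ht (List.not_mem_nil), rfl, rfl⟩)
  | succ n hn ih =>
    refine (NN_step hp T (n := n + 1) (by omega)).trans (sup_le ?_ le_sup_right)
    rw [Submodule.span_le]
    rintro a (⟨i, y, hi, hy, rfl⟩ | ⟨z, hz, t, ht, rfl⟩)
    · exact Submodule.mem_sup_left (Submodule.subset_span
        ⟨n + 1, y ^ p, [], Or.inr ⟨by omega, i, y, hi.symm, hy, rfl⟩,
          fun t ht => absurd ht (List.not_mem_nil), rfl, rfl⟩)
    · rw [Nat.add_sub_cancel] at hz
      have h1 := ih hz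
      have h2 : Submodule.span (ZMod p)
          {a | ∃ (i : ℕ) (x : H) (τ : List H), Head p T h i x ∧ (∀ t ∈ τ, t ∈ T) ∧
            i + τ.length = n ∧ a = act (fun t : H => adj p (dl p t)) τ (dl p x)} ⊔
              FF p H (n + 1) ≤ (Submodule.span (ZMod p)
          {a | ∃ (i : ℕ) (x : H) (τ : List H), Head p T h i x ∧ (∀ t ∈ τ, t ∈ T) ∧
            i + τ.length = n + 1 ∧ a = act (fun t : H => adj p (dl p t)) τ (dl p x)} ⊔
              FF p H (n + 1 + 1)).comap (adj p (dl p t)) := by
        refine sup_le ?_ ?_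
        · rw [Submodule.span_le]
          rintro a ⟨i, x, τ, hx, hτ, hi, rfl⟩
          refine Submodule.mem_sup_left (Submodule.subset_span ⟨i, x, t :: τ, hx, ?_, ?_, rfl⟩)
          · intro s hs
            rcases List.mem_cons.1 hs with rfl | hs
            · exact ht
            · exact hτ s hs
          · rw [List.length_cons]
            omega
        · intro v hv
          refine Submodule.mem_sup_right (Submodule.sub_mem _ ?_ ?_)
          · exact FF_mul p hv (dl_mem_one p t)
          · have h3 := FF_mul p (dl_mem_one p t) hv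
            have e : 1 + (n + 1) = n + 1 + 1 := by ring
            rw [e] at h3
            exact h3
      exact h2 h1

end ALQ
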