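import Pool.Agent.ALQ.G13a
import Pool.Agent.ALQ.G11

/-!
# [ALQ-G13] the operators of the letters are filtered operators
-/

set_option autoImplicit false

namespace ALQ

open AG ALG

variable {H : Type*} [Group H]

theorem g13_bJ {p : ℕ} (hp : p.Prime) (T : Finset H) (r : ℕ) (j : JJ p T r) :
    WD p T (wJ p T r j) (bJ hp T r j) := bas_word hp T _ _

theorem g13_sum {p : ℕ} (hp : p.Prime) (T : Finset H) (r : ℕ) {ι : Type*} (s : Finset ι)
    (c : ι → ZMod p) (f : ι → MonoidAlgebra (ZMod p) H) (v : MonoidAlgebra (ZMod p) H) :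
    v * ∑ l ∈ s, c l • f l = ∑ l ∈ s, c l • (v * f l) := by
  rw [Finset.mul_sum]
  exact Finset.sum_congr rfl fun l _ => mul_smul_comm _ _ _

theorem g13_sum' {p : ℕ} (hp : p.Prime) (T : Finset H) (r : ℕ) {ι : Type*} (s : Finset ι)
    (c : ι → ZMod p) (f : ι → MonoidAlgebra (ZMod p) H) (v : MonoidAlgebra (ZMod p) H) :
    (∑ l ∈ s, c l • f l) * v = ∑ l ∈ s, c l • (f l * v) := by
  rw [Finset.sum_mul]
  exact Finset.sum_congr rfl fun l _ => smul_mul_assoc _ _ _

theorem g13_rep {k V J : Type*} [Field k] [AddCommGroup V] [Module k V] (β : J → V →ₗ[k] V)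
    (j : J) (n : ℕ) (v : V) : act β (List.replicate n j) v = ((β j) ^ n) v := by
  induction n with
  | zero => rfl
  | succ n ih =>
    rw [List.replicate_succ, pow_succ']
    show β j (act β (List.replicate n j) v) = β j (((β j) ^ n) v)
    rw [ih]

/-- PROOF. `anti`: `FF_anti`. `pos`: clear. `map`: `FF_mul`, `WD.mem`, `bas_word`. `comm`: with `X = dl (bJ i)`, `Y = dl (bJ j)`: `adj X (adj Y v) - adj Y (adj X v) = adj (Y X - X Y) v`, and `Y X - X Y ∈ NN (w j + w i)` (`NN_comm`, `WD.mem_NN`), `expand` gives the coefficients `c`; the error term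
`e ∈ FF (w i + w j + 1)` gives `v e - e v ∈ FF (n + (w i + w j) + 1)`. `pow`: `act β (replicate p j) v = adj X ^ p v = adj (X ^ p) v` (characteristic `p`, the left and right multiplications by `X` commute: `sub_pow_char_of_commute`), `X ^ p = dl (b ^ p)` (`dl_pow_char`) is in `NN (p w j)`
(`WD.pow`), `expand`. -/
theorem fopA {p : ℕ} (hp : p.Prime) (T : Finset H) (r : ℕ) [Fact p.Prime] :
    FOp p (FF p H) (wJ p T r) (opA hp T r) r := by
  refine ⟨FF_anti p, fun j => Nat.succ_pos _, ?_, ?_, ?_⟩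
  · intro j n v hv
    have h1 := (g13_bJ hp T r j).mem hp
    refine Submodule.sub_mem _ (FF_mul p hv h1) ?_
    have h2 := FF_mul p h1 hv
    rw [add_comm] at h2
    exact h2
  · intro i j hij
    have h1 := NN_comm hp (g13_bJ hp T r j).mem_NN (g13_bJ hp T r i).mem_NN
    obtain ⟨c, hc1, hc2⟩ := expand hp T r (wJ p T r j + wJ p T r i)
      (Nat.le_trans (Nat.succ_pos _) (Nat.le_add_right _ _)) (by omega) _ h1
    refine ⟨c, fun l hl => ?_, fun n v hv => ?_⟩
    · rw [hc1 l hl, add_comm]
    · obtain ⟨e, he⟩ : ∃ e, e = dl p (bJ hp T r j) * dl p (bJ hp T r i) -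
          dl p (bJ hp T r i) * dl p (bJ hp T r j) - ∑ l, c l • dl p (bJ hp T r l) := ⟨_, rfl⟩
      rw [← he, add_comm (wJ p T r j)] at hc2
      have h2 : opA hp T r i (opA hp T r j v) - opA hp T r j (opA hp T r i v) -
          ∑ l, c l • opA hp T r l v = v * e - e * v := by
        have h3 : ∑ l, c l • opA hp T r l v = v * ∑ l, c l • dl p (bJ hp T r l) -
            (∑ l, c l • dl p (bJ hp T r l)) * v := by
          rw [g13_sum hp T r, g13_sum' hp T r, ← Finset.sum_sub_distrib]
          exact Finset.sum_congr rfl fun l _ => by rw [← smul_sub]; rfl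
        rw [h3, he]
        show (v * dl p (bJ hp T r j) - dl p (bJ hp T r j) * v) * dl p (bJ hp T r i) -
          dl p (bJ hp T r i) * (v * dl p (bJ hp T r j) - dl p (bJ hp T r j) * v) -
          ((v * dl p (bJ hp T r i) - dl p (bJ hp T r i) * v) * dl p (bJ hp T r j) -
          dl p (bJ hp T r j) * (v * dl p (bJ hp T r i) - dl p (bJ hp T r i) * v)) - _ = _
        noncomm_ring
      rw [h2]
      refine Submodule.sub_mem _ ?_ ?_
      · have h3 := FF_mul p hv hc2
        exact h3
      · have h3 := FF_mul p hc2 hv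
        have e3 : wJ p T r i + wJ p T r j + 1 + n = n + (wJ p T r i + wJ p T r j) + 1 := by ring
        rw [e3] at h3
        exact h3
  · intro j hj
    have h1 := (WD.pow (g13_bJ hp T r j)).mem_NN
    obtain ⟨c, hc1, hc2⟩ := expand hp T r (p * wJ p T r j)
      (Nat.mul_pos hp.pos (Nat.succ_pos _)) (by omega) _ h1
    refine ⟨c, hc1, fun n v hv => ?_⟩
    obtain ⟨e, he⟩ : ∃ e, e = dl p (bJ hp T r j ^ p) - ∑ l, c l • dl p (bJ hp T r l) := ⟨_, rfl⟩
    rw [← he] at hc2
    have h2 : act (opA hp T r) (List.replicate p j) v - ∑ l, c l • opA hp T r l v =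
        v * e - e * v := by
      have h3 : ∑ l, c l • opA hp T r l v = v * ∑ l, c l • dl p (bJ hp T r l) -
          (∑ l, c l • dl p (bJ hp T r l)) * v := by
        rw [g13_sum hp T r, g13_sum' hp T r, ← Finset.sum_sub_distrib]
        exact Finset.sum_congr rfl fun l _ => by rw [← smul_sub]; rfl
      rw [h3, he, g13_rep]
      have h4 : ((opA hp T r j) ^ p) v = v * dl p (bJ hp T r j) ^ p - dl p (bJ hp T r j) ^ p * v :=
        adj_pow hp _ _
      rw [h4, ← dl_pow_char p hp]
      noncomm_ring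
    rw [h2]
    refine Submodule.sub_mem _ ?_ ?_
    · have h3 := FF_mul p hv hc2
      exact h3
    · have h3 := FF_mul p hc2 hv
      have e3 : p * wJ p T r j + 1 + n = n + p * wJ p T r j + 1 := by ring
      rw [e3] at h3
      exact h3

/-- PROOF. As `fopA`: `(v Y) X - (v X) Y = v (Y X - X Y)`, and `act β (replicate p j) v = v X ^ p`. -/
theorem fopR {p : ℕ} (hp : p.Prime) (T : Finset H) (r : ℕ) [Fact p.Prime] :
    FOp p (FF p H) (wJ p T r) (opR hp T r) r := by
  refine ⟨FF_anti p, fun j => Nat.succ_pos _, ?_, ?_, ?_⟩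
  · intro j n v hv
    exact FF_mul p hv ((g13_bJ hp T r j).mem hp)
  · intro i j hij
    have h1 := NN_comm hp (g13_bJ hp T r j).mem_NN (g13_bJ hp T r i).mem_NN
    obtain ⟨c, hc1, hc2⟩ := expand hp T r (wJ p T r j + wJ p T r i)
      (Nat.le_trans (Nat.succ_pos _) (Nat.le_add_right _ _)) (by omega) _ h1
    refine ⟨c, fun l hl => ?_, fun n v hv => ?_⟩
    · rw [hc1 l hl, add_comm]
    · obtain ⟨e, he⟩ : ∃ e, e = dl p (bJ hp T r j) * dl p (bJ hp T r i) -
          dl p (bJ hp T r i) * dl p (bJ hp T r j) - ∑ l, c l • dl p (bJ hp T r l) := ⟨_, rfl⟩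
      rw [← he, add_comm (wJ p T r j)] at hc2
      have h2 : opR hp T r i (opR hp T r j v) - opR hp T r j (opR hp T r i v) -
          ∑ l, c l • opR hp T r l v = v * e := by
        have h3 : ∑ l, c l • opR hp T r l v = v * ∑ l, c l • dl p (bJ hp T r l) := by
          rw [g13_sum hp T r]
          exact Finset.sum_congr rfl fun l _ => rfl
        rw [h3, he]
        show v * dl p (bJ hp T r j) * dl p (bJ hp T r i) -
          v * dl p (bJ hp T r i) * dl p (bJ hp T r j) - _ = _
        noncomm_ring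
      rw [h2]
      have h3 := FF_mul p hv hc2
      exact h3
  · intro j hj
    have h1 := (WD.pow (g13_bJ hp T r j)).mem_NN
    obtain ⟨c, hc1, hc2⟩ := expand hp T r (p * wJ p T r j)
      (Nat.mul_pos hp.pos (Nat.succ_pos _)) (by omega) _ h1
    refine ⟨c, hc1, fun n v hv => ?_⟩
    obtain ⟨e, he⟩ : ∃ e, e = dl p (bJ hp T r j ^ p) - ∑ l, c l • dl p (bJ hp T r l) := ⟨_, rfl⟩
    rw [← he] at hc2
    have h2 : act (opR hp T r) (List.replicate p j) v - ∑ l, c l • opR hp T r l v = v * e := by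
      have h3 : ∑ l, c l • opR hp T r l v = v * ∑ l, c l • dl p (bJ hp T r l) := by
        rw [g13_sum hp T r]
        exact Finset.sum_congr rfl fun l _ => rfl
      rw [h3, he, g13_rep]
      have h4 : ((opR hp T r j) ^ p) v = v * dl p (bJ hp T r j) ^ p := by
        unfold opR
        rw [LinearMap.pow_mulRight]
        rfl
      rw [h4, ← dl_pow_char p hp]
      noncomm_ring
    rw [h2]
    have h3 := FF_mul p hv hc2
    exact h3

end ALQ
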