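import Pool.Agent.ALQ.JJ

/-!
# [ALQ-G13a] expansion in the letters
-/

set_option autoImplicit false

namespace ALQ

open AG ALG

variable {H : Type*} [Group H]

/-- PROOF. `bas_span`: `z` is a linear combination of the `dl (bas n j)` modulo `FF (n + 1)` (`Submodule.mem_sup`, `Submodule.mem_span_range_iff_exists_fun`); the letters of weight `n` are the `⟨⟨n - 1, _⟩, j⟩` (`n - 1 < r`; transport along `n - 1 + 1 = n`, best by writing `n = x + 1` with
`x : Fin r`); extend the coefficients by `0` (sum over a sigma type, `Fintype.sum_sigma`, `Finset.sum_eq_single`). -/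
theorem expand {p : ℕ} (hp : p.Prime) (T : Finset H) (r n : ℕ) (h1 : 1 ≤ n) (h2 : n ≤ r)
    (z : MonoidAlgebra (ZMod p) H) (hz : z ∈ NN p T n) :
    ∃ c : JJ p T r → ZMod p, (∀ l, c l ≠ 0 → wJ p T r l = n) ∧
      z - ∑ l, c l • dl p (bJ hp T r l) ∈ FF p H (n + 1) := by
  classical
  obtain ⟨m, rfl⟩ : ∃ m, n = m + 1 := ⟨n - 1, by omega⟩
  obtain ⟨y, hy, e, he, rfl⟩ := Submodule.mem_sup.1 (bas_span hp T (m + 1) hz)
  obtain ⟨c, rfl⟩ := (Submodule.mem_span_range_iff_exists_fun _).1 hy
  obtain ⟨x, hx⟩ : ∃ x : Fin r, x.val = m := ⟨⟨m, by omega⟩, rfl⟩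
  subst hx
  refine ⟨fun l => if h : l.1 = x then c (Fin.cast (by rw [h]) l.2) else 0, fun l hl => ?_, ?_⟩
  · by_cases h : l.1 = x
    · show l.1.val + 1 = x.val + 1
      rw [h]
    · exact absurd (dif_neg h) hl
  · have h1 : ∑ l : JJ p T r, (if h : l.1 = x then c (Fin.cast (by rw [h]) l.2) else 0) •
        dl p (bJ hp T r l) = ∑ j, c j • dl p (bas hp T (x.val + 1) j) := by
      rw [Fintype.sum_sigma, Finset.sum_eq_single x]
      · apply Finset.sum_congr rfl
        intro j _
        rw [dif_pos rfl]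
        rfl
      · intro x' _ hx'
        apply Finset.sum_eq_zero
        intro j _
        rw [dif_neg hx', zero_smul]
      · intro h
        exact absurd (Finset.mem_univ x) h
    rw [h1, add_sub_cancel_left]
    exact he

end ALQ
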