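import Pool.Agent.ALQ.G13

/-!
# [ALQ-G15] words in the generators and words in the letters
-/

set_option autoImplicit false

namespace ALQ

open AG ALG

variable {H : Type*} [Group H]

theorem g15_gen {p : ℕ} (hp : p.Prime) (T : Finset H) (r : ℕ) (hr : 1 ≤ r) {t : H} (ht : t ∈ T) :
    ∃ c : JJ p T r → ZMod p, (∀ l, c l ≠ 0 → wJ p T r l = 1) ∧
      dl p t - ∑ l, c l • dl p (bJ hp T r l) ∈ FF p H 2 :=
  expand hp T r 1 le_rfl hr _ (WD.gen t ht).mem_NN

/-- PROOF. Induction on `τ`. `τ = []`: `l = []`. `t :: τ`: by induction `act _ τ u` is a combination of `act _ l u`, `wt l = τ.length`, modulo `FF (i + τ.length + 1)`; apply `adj (dl t)`: `dl t = ∑ c j • dl (bJ j)` modulo `FF 2`, `c j ≠ 0 → w j = 1` (`expand` with `n = 1`, `WD.gen`), so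
`adj (dl t) v = ∑ c j • opA j v` modulo `FF (i + τ.length + 2)` for `v = act _ l u ∈ FF (i + τ.length)` (`FOp.act_mem`, `FF_mul`), and `opA j (act _ l u) = act _ (j :: l) u`. -/
theorem genA {p : ℕ} (hp : p.Prime) (T : Finset H) (r : ℕ) [Fact p.Prime] (i : ℕ)
    (u : MonoidAlgebra (ZMod p) H) (hu : u ∈ FF p H i) (τ : List H) (hτ : ∀ t ∈ τ, t ∈ T)
    (hr : τ.length ≤ r) :
    act (fun t : H => adj p (dl p t)) τ u ∈ Submodule.span (ZMod p)
      {v | ∃ l : List (JJ p T r), wt (wJ p T r) l = τ.length ∧ v = act (opA hp T r) l u} ⊔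
        FF p H (i + τ.length + 1) := by
  induction τ with
  | nil => exact Submodule.mem_sup_left (Submodule.subset_span ⟨[], rfl, rfl⟩)
  | cons t τ ih =>
    rw [List.length_cons] at hr ⊢
    have h1 := ih (fun s hs => hτ s (List.mem_cons_of_mem _ hs)) (by omega)
    obtain ⟨c, hc1, hc2⟩ := g15_gen hp T r (by omega) (hτ t List.mem_cons_self)
    have h2 : Submodule.span (ZMod p)
        {v | ∃ l : List (JJ p T r), wt (wJ p T r) l = τ.length ∧ v = act (opA hp T r) l u} ⊔
          FF p H (i + τ.length + 1) ≤ (Submodule.span (ZMod p)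
        {v | ∃ l : List (JJ p T r), wt (wJ p T r) l = τ.length + 1 ∧
          v = act (opA hp T r) l u} ⊔ FF p H (i + (τ.length + 1) + 1)).comap (adj p (dl p t)) := by
      refine sup_le ?_ ?_
      · rw [Submodule.span_le]
        rintro v ⟨l, hl, rfl⟩
        have hv : act (opA hp T r) l u ∈ FF p H (i + τ.length) := by
          rw [← hl]
          exact (fopA hp T r).act_mem l hu
        obtain ⟨v, hv'⟩ : ∃ v, v = act (opA hp T r) l u := ⟨_, rfl⟩
        rw [← hv'] at hv ⊢
        obtain ⟨e, he⟩ : ∃ e, e = dl p t - ∑ l, c l • dl p (bJ hp T r l) := ⟨_, rfl⟩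
        rw [← he] at hc2
        have h3 : adj p (dl p t) v = ∑ j, c j • opA hp T r j v + (v * e - e * v) := by
          have h4 : ∑ l, c l • opA hp T r l v = v * ∑ l, c l • dl p (bJ hp T r l) -
              (∑ l, c l • dl p (bJ hp T r l)) * v := by
            rw [g13_sum hp T r, g13_sum' hp T r, ← Finset.sum_sub_distrib]
            exact Finset.sum_congr rfl fun l _ => by rw [← smul_sub]; rfl
          rw [h4, he, adj_apply]
          noncomm_ring
        rw [SetLike.mem_coe, Submodule.mem_comap, h3]
        refine Submodule.add_mem _ (Submodule.sum_mem _ fun j _ => ?_) ?_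
        · by_cases hj : c j = 0
          · rw [hj, zero_smul]
            exact Submodule.zero_mem _
          · refine Submodule.smul_mem _ _ (Submodule.mem_sup_left (Submodule.subset_span
              ⟨j :: l, ?_, ?_⟩))
            · rw [wt_cons, hc1 j hj, hl, add_comm]
            · rw [hv']
              rfl
        · refine Submodule.mem_sup_right (Submodule.sub_mem _ ?_ ?_)
          · have h5 := FF_mul p hv hc2
            exact h5
          · have h5 := FF_mul p hc2 hv
            have e3 : 2 + (i + τ.length) = i + (τ.length + 1) + 1 := by ring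
            rw [e3] at h5
            exact h5
      · intro v hv
        refine Submodule.mem_sup_right (Submodule.sub_mem _ ?_ ?_)
        · have h5 := FF_mul p hv (dl_mem_one p t)
          exact h5
        · have h5 := FF_mul p (dl_mem_one p t) hv
          have e3 : 1 + (i + τ.length + 1) = i + (τ.length + 1) + 1 := by ring
          rw [e3] at h5
          exact h5
    exact h2 h1

/-- PROOF. As `genA`, with `u = 1`, `i = 0` and right multiplications: induction on `τ` from the right (`List.reverseRecOn` or a list `τ ++ [t]`): `(τ ++ [t]).map dl).prod = (τ.map dl).prod * dl t`, and `opR j (act _ l 1) = act _ (j :: l) 1`. -/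
theorem genR {p : ℕ} (hp : p.Prime) (T : Finset H) (r : ℕ) [Fact p.Prime] (τ : List H)
    (hτ : ∀ t ∈ τ, t ∈ T) (hr : τ.length ≤ r) :
    (τ.map (dl p)).prod ∈ Submodule.span (ZMod p)
      {v | ∃ l : List (JJ p T r), wt (wJ p T r) l = τ.length ∧ v = act (opR hp T r) l 1} ⊔
        FF p H (τ.length + 1) := by
  induction τ using List.reverseRecOn with
  | nil => exact Submodule.mem_sup_left (Submodule.subset_span ⟨[], rfl, rfl⟩)
  | append_singleton τ t ih =>
    rw [List.length_append, List.length_singleton] at hr ⊢
    have h1 := ih (fun s hs => hτ s (List.mem_append_left _ hs)) (by omega)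
    obtain ⟨c, hc1, hc2⟩ := g15_gen hp T r (by omega)
      (hτ t (List.mem_append_right _ (List.mem_singleton.2 rfl)))
    have h0 : ((τ ++ [t]).map (dl p)).prod = (τ.map (dl p)).prod * dl p t := by
      rw [List.map_append, List.prod_append, List.map_singleton, List.prod_singleton]
    rw [h0]
    have h2 : Submodule.span (ZMod p)
        {v | ∃ l : List (JJ p T r), wt (wJ p T r) l = τ.length ∧ v = act (opR hp T r) l 1} ⊔
          FF p H (τ.length + 1) ≤ (Submodule.span (ZMod p)
        {v | ∃ l : List (JJ p T r), wt (wJ p T r) l = τ.length + 1 ∧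
          v = act (opR hp T r) l 1} ⊔ FF p H (τ.length + 1 + 1)).comap
            (LinearMap.mulRight (ZMod p) (dl p t)) := by
      refine sup_le ?_ ?_
      · rw [Submodule.span_le]
        rintro v ⟨l, hl, rfl⟩
        have hv : act (opR hp T r) l 1 ∈ FF p H (0 + τ.length) := by
          rw [← hl]
          exact (fopR hp T r).act_mem l (Submodule.mem_top : (1 : MonoidAlgebra (ZMod p) H) ∈
            FF p H 0)
        rw [zero_add] at hv
        obtain ⟨v, hv'⟩ : ∃ v, v = act (opR hp T r) l 1 := ⟨_, rfl⟩
        rw [← hv'] at hv ⊢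
        obtain ⟨e, he⟩ : ∃ e, e = dl p t - ∑ l, c l • dl p (bJ hp T r l) := ⟨_, rfl⟩
        rw [← he] at hc2
        have h3 : v * dl p t = ∑ j, c j • opR hp T r j v + v * e := by
          have h4 : ∑ l, c l • opR hp T r l v = v * ∑ l, c l • dl p (bJ hp T r l) := by
            rw [g13_sum hp T r]
            exact Finset.sum_congr rfl fun l _ => rfl
          rw [h4, he]
          noncomm_ring
        rw [SetLike.mem_coe, Submodule.mem_comap, LinearMap.mulRight_apply, h3]
        refine Submodule.add_mem _ (Submodule.sum_mem _ fun j _ => ?_) ?_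
        · by_cases hj : c j = 0
          · rw [hj, zero_smul]
            exact Submodule.zero_mem _
          · refine Submodule.smul_mem _ _ (Submodule.mem_sup_left (Submodule.subset_span
              ⟨j :: l, ?_, ?_⟩))
            · rw [wt_cons, hc1 j hj, hl, add_comm]
            · rw [hv']
              rfl
        · refine Submodule.mem_sup_right ?_
          have h5 := FF_mul p hv hc2
          exact h5
      · intro v hv
        refine Submodule.mem_sup_right ?_
        have h5 := FF_mul p hv (dl_mem_one p t)
        exact h5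
    exact h2 h1

end ALQ
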