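import Pool.Agent.ALQ.G13

/-!
# [ALQ-G16] short group elements for words in the letters
-/

set_option autoImplicit false

namespace ALQ

open AG ALG

variable {H : Type*} [Group H]

/-- PROOF. Induction on `l`. `l = []`: `g = x`. `j :: l`: `g'` for `l`; by `hL` there is `y ∈ ball T L` with `dl y = dl (bJ j)` modulo `FF (w j + 1)` (`bas_word`, `WD.mem_NN`; `w j ≤ r`). Let `g = g' y g'⁻¹ y⁻¹`, of length at most `2 * 4^(l.length) (L + L') + 2 L`. By `dl_comm`:
`dl g = dl g' * dl y - dl y * dl g'` modulo `FF (i + wt l + w j + 1)`, and this is `adj (dl (bJ j)) (act _ l (dl x))` modulo the same space, as `dl g' - act _ l (dl x) ∈ FF (i + wt l + 1)`, `dl g' ∈ FF (i + wt l)` (`FOp.act_mem`), `dl y - dl (bJ j) ∈ FF (w j + 1)` (`FF_mul`). -/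
theorem short_word {p : ℕ} (hp : p.Prime) (T : Finset H) (r : ℕ) [Fact p.Prime] (L L' : ℕ)
    (hL : ∀ w, 1 ≤ w → w ≤ r → Sh p T w L) {i : ℕ} {x : H} (hx : dl p x ∈ FF p H i)
    (hxL : x ∈ ball T L') (l : List (JJ p T r)) :
    ∃ g ∈ ball T (4 ^ l.length * (L + L')),
      dl p g - act (opA hp T r) l (dl p x) ∈ FF p H (i + wt (wJ p T r) l + 1) := by
  induction l with
  | nil =>
    refine ⟨x, ball_mono T ?_ hxL, ?_⟩
    · rw [List.length_nil, pow_zero, one_mul]
      exact Nat.le_add_left _ _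
    · have h1 : dl p x - act (opA hp T r) [] (dl p x) = 0 := sub_self _
      rw [h1]
      exact Submodule.zero_mem _
  | cons j l ih =>
    obtain ⟨g, hg, hg2⟩ := ih
    have hw : wJ p T r j ≤ r := j.1.2
    obtain ⟨y, hy, hy2⟩ := hL (wJ p T r j) (Nat.succ_pos _) hw _ (g13_bJ hp T r j).mem_NN
    obtain ⟨A, hA⟩ : ∃ A, A = act (opA hp T r) l (dl p x) := ⟨_, rfl⟩
    obtain ⟨B, hB⟩ : ∃ B, B = dl p (bJ hp T r j) := ⟨_, rfl⟩
    have hAF : A ∈ FF p H (i + wt (wJ p T r) l) := by
      rw [hA]
      exact (fopA hp T r).act_mem l hx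
    have hBF : B ∈ FF p H (wJ p T r j) := by
      rw [hB]
      exact (g13_bJ hp T r j).mem hp
    rw [← hA] at hg2
    rw [← hB] at hy2
    have hgF : dl p g ∈ FF p H (i + wt (wJ p T r) l) := by
      have h5 := Submodule.add_mem _ (FF_anti p _ hg2) hAF
      rwa [sub_add_cancel] at h5
    have hyF : dl p y ∈ FF p H (wJ p T r j) := by
      have h5 := Submodule.add_mem _ (FF_anti p _ hy2) hBF
      rwa [sub_add_cancel] at h5
    refine ⟨g * y * g⁻¹ * y⁻¹, ?_, ?_⟩
    · have h1 := mul_mem_ball (mul_mem_ball (mul_mem_ball hg hy) (inv_mem_ball hg))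
        (inv_mem_ball hy)
      refine ball_mono T ?_ h1
      have h2 : L ≤ 4 ^ l.length * (L + L') :=
        (Nat.le_add_right L L').trans (Nat.le_mul_of_pos_left _ (pow_pos (by norm_num) _))
      rw [List.length_cons, pow_succ]
      have h3 : 4 ^ l.length * 4 * (L + L') = 4 * (4 ^ l.length * (L + L')) := by ring
      rw [h3]
      omega
    · have h1 := dl_comm p hgF hyF
      have e0 : i + wt (wJ p T r) l + wJ p T r j + 1 = i + wt (wJ p T r) (j :: l) + 1 := by
        rw [wt_cons]
        ring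
      have h2 : (dl p g - A) * dl p y ∈ FF p H (i + wt (wJ p T r) l + wJ p T r j + 1) := by
        have h3 := FF_mul p hg2 hyF
        have e : i + wt (wJ p T r) l + 1 + wJ p T r j =
          i + wt (wJ p T r) l + wJ p T r j + 1 := by ring
        rwa [e] at h3
      have h3 : A * (dl p y - B) ∈ FF p H (i + wt (wJ p T r) l + wJ p T r j + 1) := by
        have h3 := FF_mul p hAF hy2
        exact h3
      have h4 : (dl p y - B) * dl p g ∈ FF p H (i + wt (wJ p T r) l + wJ p T r j + 1) := by
        have h3 := FF_mul p hy2 hgF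
        have e : wJ p T r j + 1 + (i + wt (wJ p T r) l) =
          i + wt (wJ p T r) l + wJ p T r j + 1 := by ring
        rwa [e] at h3
      have h5 : B * (dl p g - A) ∈ FF p H (i + wt (wJ p T r) l + wJ p T r j + 1) := by
        have h3 := FF_mul p hBF hg2
        have e : wJ p T r j + (i + wt (wJ p T r) l + 1) =
          i + wt (wJ p T r) l + wJ p T r j + 1 := by ring
        rwa [e] at h3
      have h6 : dl p (g * y * g⁻¹ * y⁻¹) - act (opA hp T r) (j :: l) (dl p x) =
          (dl p (g * y * g⁻¹ * y⁻¹) - (dl p g * dl p y - dl p y * dl p g)) +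
          ((dl p g - A) * dl p y + A * (dl p y - B)) -
          ((dl p y - B) * dl p g + B * (dl p g - A)) := by
        have h7 : act (opA hp T r) (j :: l) (dl p x) = A * B - B * A := by
          rw [hA, hB]
          rfl
        rw [h7]
        noncomm_ring
      rw [h6, ← e0]
      exact Submodule.sub_mem _ (Submodule.add_mem _ h1 (Submodule.add_mem _ h2 h3))
        (Submodule.add_mem _ h4 h5)

/-- PROOF. Induction on `l`: `opA j v = v * dl (bJ j) - dl (bJ j) * v ∈ NN (i + wt l + w j)` by `NN_comm`, `WD.mem_NN`, `bas_word`. -/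
theorem act_mem_NN {p : ℕ} (hp : p.Prime) [Fact p.Prime] (T : Finset H) (r : ℕ) {i : ℕ}
    {u : MonoidAlgebra (ZMod p) H} (hu : u ∈ NN p T i) (l : List (JJ p T r)) :
    act (opA hp T r) l u ∈ NN p T (i + wt (wJ p T r) l) := by
  induction l with
  | nil => exact hu
  | cons j l ih =>
    have h1 := NN_comm hp ih (g13_bJ hp T r j).mem_NN
    have e : i + wt (wJ p T r) (j :: l) = i + wt (wJ p T r) l + wJ p T r j := by
      rw [wt_cons]
      ring
    rw [e]
    exact h1

end ALQ
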