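import Pool.Agent.ALQ.G5

/-!
# [ALQ-G7] short representatives
-/

set_option autoImplicit false

namespace ALQ

open AG ALG

variable {H : Type*} [Group H]

/-- PROOF. In the quotient by `FF (n + 1)` the image of `NN n` is a space of dimension `mm n` spanned by the classes of the `dl g`, `g ∈ X`: choose a basis `g_1, ..., g_m`, `m = mm n`, of it among them (`Submodule.exists_fun_fin_finrank_span_eq`). Then
`z = ∑ c_j dl g_j` modulo `FF (n + 1)` with `c_j` the classes of integers `0 ≤ e_j < p`, and `g = ∏ g_j ^ e_j` works (`dl_list`, `dl_npow`, `NN_le`), of length at most `m p L` (list product of at most `m p` elements of the ball). -/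
theorem exists_rep {p : ℕ} (hp : p.Prime) (T : Finset H) {n : ℕ} (hn : 1 ≤ n) (X : Set H) (L : ℕ)
    (hX : ∀ g ∈ X, dl p g ∈ NN p T n ∧ g ∈ ball T L)
    (hs : NN p T n ≤ Submodule.span (ZMod p) {a | ∃ g ∈ X, a = dl p g} ⊔ FF p H (n + 1)) :
    Sh p T n (p * mm p T n * L) := by
  have := Fact.mk hp
  intro z hz
  obtain ⟨f, hf, hf2, -⟩ := g5_lin (FF p H (n + 1)) (NN p T n)
    {a | ∃ g ∈ X, a = dl p g} (by
      rintro a ⟨g, hg, rfl⟩
      exact (hX g hg).1) hs (g5_fin hp T n)
  choose b hb hb2 using hf
  have h1 := hf2 hz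
  obtain ⟨y, hy, e, he, hye⟩ := Submodule.mem_sup.1 h1
  rw [Submodule.mem_span_range_iff_exists_fun] at hy
  obtain ⟨c, hc⟩ := hy
  refine ⟨(List.ofFn fun j => b j ^ (c j).val).prod, ?_, ?_⟩
  · have h2 : ∀ (m : ℕ) (b : Fin m → H) (c : Fin m → ZMod p), (∀ j, b j ∈ ball T L) →
        (List.ofFn fun j => b j ^ (c j).val).prod ∈ ball T (p * m * L) := by
      intro m
      induction m with
      | zero =>
        intro b c _
        rw [List.ofFn_zero, List.prod_nil]
        exact one_mem_ball T _
      | succ m ih =>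
        intro b c hb
        rw [List.ofFn_succ, List.prod_cons]
        have h3 := pow_mem_ball (hb 0) (c 0).val
        have h4 := ih (fun j => b j.succ) (fun j => c j.succ) (fun j => hb j.succ)
        refine ball_mono T ?_ (mul_mem_ball h3 h4)
        have h5 : (c 0).val ≤ p := (ZMod.val_lt (c 0)).le
        have h6 : (c 0).val * L ≤ p * L := Nat.mul_le_mul_right _ h5
        have h7 : p * (m + 1) * L = p * L + p * m * L := by ring
        rw [h7]
        omega
    exact h2 _ b c fun j => (hX _ (hb j)).2
  · have hF : ∀ j, dl p (b j) ∈ FF p H n := fun j => NN_le hp T n (hX _ (hb j)).1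
    have hpow : ∀ j, dl p (b j ^ (c j).val) ∈ FF p H n := by
      intro j
      have h2 := dl_npow p hn (hF j) (c j).val
      have h3 := Submodule.add_mem _ (FF_anti p n h2)
        (Submodule.smul_of_tower_mem _ (c j).val (hF j))
      rwa [sub_add_cancel] at h3
    have h2 := dl_list p hn (List.ofFn fun j => b j ^ (c j).val) (by
      intro x hx
      obtain ⟨j, rfl⟩ := (List.mem_ofFn' _ _).1 hx
      exact hpow j)
    rw [List.map_ofFn, List.sum_ofFn] at h2
    have h3 : ∑ j, (dl p ∘ fun j => b j ^ (c j).val) j - y ∈ FF p H (n + 1) := by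
      rw [← hc, ← Finset.sum_sub_distrib]
      refine Submodule.sum_mem _ fun j _ => ?_
      have h4 := dl_npow p hn (hF j) (c j).val
      have h5 : c j • f j = (c j).val • dl p (b j) := by
        rw [hb2 j]
        conv_lhs => rw [← ZMod.natCast_zmod_val (c j)]
        rw [Nat.cast_smul_eq_nsmul]
      rw [h5]
      exact h4
    have h6 : dl p (List.ofFn fun j => b j ^ (c j).val).prod - z =
        (dl p (List.ofFn fun j => b j ^ (c j).val).prod -
          ∑ j, (dl p ∘ fun j => b j ^ (c j).val) j) +
        (∑ j, (dl p ∘ fun j => b j ^ (c j).val) j - y) - e := by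
      rw [← hye]
      abel
    rw [h6]
    exact Submodule.sub_mem _ (Submodule.add_mem _ h2 h3) he

end ALQ
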