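import Pool.Agent.ALQ.G12
import Pool.Agent.ALQ.G15
import Pool.Agent.ALQ.G16
import Pool.Agent.ALQ.G7
import Pool.Agent.ALQ.A8

/-!
# [ALQ-G17] the main recursion
-/

set_option autoImplicit false

namespace ALQ

open AG ALG

variable {H : Type*} [Group H]

theorem g17_adj {p : ℕ} {m n : ℕ} {b v : MonoidAlgebra (ZMod p) H} (hb : b ∈ FF p H m)
    (hv : v ∈ FF p H n) : adj p b v ∈ FF p H (n + m) := by
  have h1 : v * b ∈ FF p H (n + m) := FF_mul p hv hb
  have h2 : b * v ∈ FF p H (n + m) := by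
    have h3 := FF_mul p hb hv
    rwa [add_comm m n] at h3
  exact Submodule.sub_mem _ h1 h2

theorem g17_act {p : ℕ} [Fact p.Prime] (τ : List H) {m : ℕ} {v : MonoidAlgebra (ZMod p) H}
    (hv : v ∈ FF p H m) : act (fun t : H => adj p (dl p t)) τ v ∈ FF p H (m + τ.length) := by
  induction τ with
  | nil => exact hv
  | cons t τ ih =>
    have h := g17_adj (m := 1) (n := m + τ.length) (dl_mem_one p t) ih
    exact h

theorem g17_head {p : ℕ} (hp : p.Prime) (T : Finset H) {h i n L : ℕ} {x : H} (hx : Head p T h i x)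
    (hh : 1 ≤ h) (hin : i ≤ n) (hn : n ≤ 2 * h) (hL : ∀ w, 1 ≤ w → w ≤ h → Sh p T w L) :
    h ≤ i ∧ dl p x ∈ NN p T i ∧ ∃ x' ∈ ball T (p * L), dl p x' - dl p x ∈ FF p H (i + 1) := by
  rcases hx with ⟨rfl, hw⟩ | ⟨hi, i', y, rfl, hy, rfl⟩
  · refine ⟨le_rfl, hw.mem_NN, ?_⟩
    obtain ⟨g, hg, hg2⟩ := hL i hh le_rfl (dl p x) hw.mem_NN
    refine ⟨g, ball_mono T ?_ hg, hg2⟩
    exact Nat.le_mul_of_pos_left _ hp.pos
  · have h1 : 1 ≤ i' := hy.pos hp
    have h2 : i' ≤ h := by
      have h3 : 2 * i' ≤ p * i' := Nat.mul_le_mul_right _ hp.two_le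
      omega
    refine ⟨hi.le, (WD.pow hy).mem_NN, ?_⟩
    obtain ⟨g, hg, hg2⟩ := hL i' h1 h2 (dl p y) hy.mem_NN
    refine ⟨g ^ p, ?_, ?_⟩
    · exact pow_mem_ball hg p
    · rw [dl_pow_char p hp, dl_pow_char p hp]
      have hyF : dl p y ∈ FF p H i' := hy.mem hp
      have hgF : dl p g ∈ FF p H i' := by
        have h5 := Submodule.add_mem _ (FF_anti p i' hg2) hyF
        rwa [sub_add_cancel] at h5
      exact FF_pow_sub p hgF hyF hg2 p hp.one_le

/-- PROOF. Let `h = (n + 1) / 2`, `r = n - h ≤ h`, so `h ≥ 1`, `r = n / 2`, `M = 4 ^ ((p - 1) * k) * ((p + 1) * L)`. Let `X = {g | dl g ∈ NN n, g ∈ ball T M}`. Claim: `NN n ≤ span {dl g | g ∈ X} ⊔ FF (n + 1)`; then `exists_rep` gives `Sh n (p * mm n * M)`, and `mm n ≤ K n`.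
Claim: by `NN_heads` (with `h`) it is enough to consider `a = act _ τ (dl x)`, `Head h i x`, `i + τ.length = n`, so `i ≤ n`, `τ.length ≤ n - h = r` (`h ≤ i`). (1) Replace `x` by a short element: there is `x' ∈ ball T (p L)` with `dl x' - dl x ∈ FF (i + 1)`: if `i = h`, by `hL h`; if `x = y ^ p`, `i = p i'`, then
`i' ≤ n / 2 ≤ h` (as `p ≥ 2`), `1 ≤ i'`, take `y' ∈ ball T L` for `y` by `hL i'`, `x' = y' ^ p`, `dl x' = (dl y') ^ p`, `FF_pow_sub`. Then `dl x' ∈ NN i` (`FF_le_NN`, and `dl x ∈ NN i`, `WD.mem_NN`), and `a - act _ τ (dl x') ∈ FF (n + 1)`. (2) `genA` (with `u = dl x' ∈ FF i`): consider `act (opA) l u` with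
`wt l = τ.length ≤ r`. (3) `FOp.short_span` for `fopA`, with `D = K * (2 * n)` (`hD`: the elements `act _ (l a) u` are in `NN (i + s)` by `act_mem_NN`, `i + s ≤ 2 n`, `le_mm`, `hK`), `hk`: consider `act (opA) l u` with `wt l = τ.length`, `l.length ≤ (p - 1) k`. (4) `short_word` (`L' = p L`):
`g ∈ ball T (4 ^ l.length * (L + p L)) ≤ ball T M` with `dl g - act _ l u ∈ FF (i + τ.length + 1) = FF (n + 1)`, and `act _ l u ∈ NN n`, so `g ∈ X`. -/
theorem recursion {p : ℕ} (hp : p.Prime) (T : Finset H) (K : ℕ)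
    (hK : ∀ n, 1 ≤ n → mm p T n ≤ K * n) (n k L : ℕ) (hn : 2 ≤ n)
    (hL : ∀ w, 1 ≤ w → w ≤ (n + 1) / 2 → Sh p T w L)
    (hk : (n / 2 + 1) * (K * (2 * n)) < 2 ^ k) :
    Sh p T n (p * (K * n) * (4 ^ ((p - 1) * k) * ((p + 1) * L))) := by
  classical
  have := Fact.mk hp
  have hp2 := hp.two_le
  obtain ⟨h, hh⟩ : ∃ h, h = (n + 1) / 2 := ⟨_, rfl⟩
  obtain ⟨r, hr⟩ : ∃ r, r = n / 2 := ⟨_, rfl⟩
  rw [← hh] at hL
  rw [← hr] at hk
  obtain ⟨M, hM⟩ : ∃ M, M = 4 ^ ((p - 1) * k) * ((p + 1) * L) := ⟨_, rfl⟩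
  rw [← hM]
  obtain ⟨X, hX⟩ : ∃ X : Set H, X = {g | dl p g ∈ NN p T n ∧ g ∈ ball T M} := ⟨_, rfl⟩
  have hclaim : NN p T n ≤ Submodule.span (ZMod p) {a | ∃ g ∈ X, a = dl p g} ⊔
      FF p H (n + 1) := by
    refine (NN_heads hp T h (by omega) n (by omega)).trans (sup_le ?_ le_sup_right)
    rw [Submodule.span_le]
    rintro a ⟨i, x, τ, hx, hτ, hin, rfl⟩
    obtain ⟨hi, hxN, x', hx'L, hx'⟩ := g17_head hp T (n := n) hx (by omega) (by omega) (by omega) hL
    have hx'N : dl p x' ∈ NN p T i := by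
      have h1 := Submodule.add_mem _ (FF_le_NN p T i hx') hxN
      rwa [sub_add_cancel] at h1
    have hx'F : dl p x' ∈ FF p H i := NN_le hp T i hx'N
    -- (1)
    have h1 : act (fun t : H => adj p (dl p t)) τ (dl p x) -
        act (fun t : H => adj p (dl p t)) τ (dl p x') ∈ FF p H (n + 1) := by
      rw [← act_sub]
      have h2 : dl p x - dl p x' ∈ FF p H (i + 1) := by
        have h3 := Submodule.neg_mem _ hx'
        rwa [neg_sub] at h3
      have h3 := g17_act τ h2
      have h4 : i + 1 + τ.length = n + 1 := by omega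
      rwa [h4] at h3
    -- (4)
    have h4 : ∀ l : List (JJ p T r), wt (wJ p T r) l = τ.length → l.length ≤ (p - 1) * k →
        act (opA hp T r) l (dl p x') ∈
          Submodule.span (ZMod p) {a | ∃ g ∈ X, a = dl p g} ⊔ FF p H (n + 1) := by
      intro l hl hlk
      obtain ⟨g, hg, hg2⟩ := short_word hp T r L (p * L) (fun w h1 h2 => hL w h1 (by omega))
        hx'F hx'L l
      rw [hl, hin] at hg2
      have hN : act (opA hp T r) l (dl p x') ∈ NN p T n := by
        have h5 := act_mem_NN hp T r hx'N l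
        rwa [hl, hin] at h5
      have hgN : dl p g ∈ NN p T n := by
        have h5 := Submodule.add_mem _ (FF_le_NN p T n hg2) hN
        rwa [sub_add_cancel] at h5
      have hgM : g ∈ ball T M := by
        refine ball_mono T ?_ hg
        rw [hM]
        have h5 : L + p * L = (p + 1) * L := by ring
        rw [h5]
        exact Nat.mul_le_mul_right _ (Nat.pow_le_pow_right (by norm_num) hlk)
      have hgX : g ∈ X := by
        rw [hX]
        exact ⟨hgN, hgM⟩
      have h6 : act (opA hp T r) l (dl p x') = dl p g + -(dl p g - act (opA hp T r) l (dl p x')) := by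
        abel
      rw [h6]
      exact Submodule.add_mem_sup (Submodule.subset_span ⟨g, hgX, rfl⟩)
        (Submodule.neg_mem _ hg2)
    -- (3)
    have h3 : ∀ l : List (JJ p T r), wt (wJ p T r) l = τ.length →
        act (opA hp T r) l (dl p x') ∈
          Submodule.span (ZMod p) {a | ∃ g ∈ X, a = dl p g} ⊔ FF p H (n + 1) := by
      intro l hl
      have h5 := (fopA hp T r).short_span hp2 hx'F (K * (2 * n)) k (by
        intro s hs m l' hl' hc
        have h6 := le_mm hp T (i + s) m (fun a => act (opA hp T r) (l' a) (dl p x')) (by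
          intro a
          have h7 := act_mem_NN hp T r hx'N (l' a)
          rwa [hl' a] at h7) hc
        refine h6.trans ((hK (i + s) (by omega)).trans ?_)
        exact Nat.mul_le_mul_left _ (by omega)) hk l (by omega)
      rw [hl, hin] at h5
      refine (sup_le ?_ le_sup_right : _ ≤ Submodule.span (ZMod p) {a | ∃ g ∈ X, a = dl p g} ⊔
        FF p H (n + 1)) h5
      rw [Submodule.span_le]
      rintro v ⟨l', h6, h7, rfl⟩
      exact h4 l' h6 h7
    -- (2)
    have h2 : act (fun t : H => adj p (dl p t)) τ (dl p x') ∈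
        Submodule.span (ZMod p) {a | ∃ g ∈ X, a = dl p g} ⊔ FF p H (n + 1) := by
      have h5 := genA hp T r i (dl p x') hx'F τ hτ (by omega)
      rw [hin] at h5
      refine (sup_le ?_ le_sup_right : _ ≤ Submodule.span (ZMod p) {a | ∃ g ∈ X, a = dl p g} ⊔
        FF p H (n + 1)) h5
      rw [Submodule.span_le]
      rintro v ⟨l', h6, rfl⟩
      exact h3 l' h6
    have h5 := Submodule.add_mem _ (Submodule.mem_sup_right (S := Submodule.span (ZMod p)
      {a | ∃ g ∈ X, a = dl p g}) h1) h2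
    rwa [sub_add_cancel] at h5
  have hrep := exists_rep hp T (by omega : 1 ≤ n) X M (by
    intro g hg
    rw [hX] at hg
    exact hg) hclaim
  intro z hz
  obtain ⟨g, hg, hg2⟩ := hrep z hz
  refine ⟨g, ball_mono T ?_ hg, hg2⟩
  exact Nat.mul_le_mul_right _ (Nat.mul_le_mul_left _ (hK n (by omega)))

end ALQ
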