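import Pool.Agent.ALQ.G17
import Pool.Agent.ALQ.G10

/-!
# [ALQ-G18] quasipolynomial length
-/

set_option autoImplicit false

namespace ALQ

open AG ALG

variable {H : Type*} [Group H]

theorem Sh.mono {p : ℕ} {T : Finset H} {n L L' : ℕ} (h : Sh p T n L) (hL : L ≤ L') :
    Sh p T n L' := by
  intro z hz
  obtain ⟨g, hg, hg2⟩ := h z hz
  exact ⟨g, ball_mono T hL hg, hg2⟩

/-- PROOF. Let `c₀` with `Sh 1 (2 ^ c₀)` (for example `exists_rep` with the words of weight 1). Let `ℓ = Nat.clog 2 n`. Choose `k = 2 ℓ + a` with `a` such that `(K + 1) * 4 ≤ 2 ^ a`: as `n ≤ 2 ^ ℓ`, `(n / 2 + 1) * (K * (2 n)) < 2 ^ k`. Then `p * (K n) * (4 ^ ((p - 1) k) * (p + 1)) ≤ 2 ^ (c₁ (ℓ + 1))` for a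
constant `c₁` independent of `n`. Claim with `c = c₀ + c₁`: strong induction on `n`; `n = 1`: clear; `n ≥ 2`: for `w ≤ (n + 1) / 2`, `clog 2 w ≤ clog 2 ((n + 1) / 2) = ℓ - 1` (`Nat.clog_of_two_le`, `Nat.clog_mono_right`), so `Sh w (2 ^ (c ℓ ^ 2))`, and `recursion` gives `Sh n (2 ^ (c₁ (ℓ + 1)) * 2 ^ (c ℓ ^ 2))`, and
`c₁ (ℓ + 1) + c ℓ ^ 2 ≤ c (ℓ + 1) ^ 2`. -/
theorem quasi {p : ℕ} (hp : p.Prime) (T : Finset H) (K : ℕ)
    (hK : ∀ n, 1 ≤ n → mm p T n ≤ K * n) :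
    ∃ c : ℕ, ∀ n, 1 ≤ n → Sh p T n (2 ^ (c * (Nat.clog 2 n + 1) ^ 2)) := by
  have h0 := exists_rep hp T (n := 1) le_rfl {x | WD p T 1 x} ((p + 4) ^ 1)
    (fun g hg => ⟨WD.mem_NN hg, WD.ball hp hg⟩) le_rfl
  obtain ⟨c₀, hc₀⟩ : ∃ c₀, c₀ = p * mm p T 1 * (p + 4) ^ 1 := ⟨_, rfl⟩
  rw [← hc₀] at h0
  obtain ⟨a, ha⟩ : ∃ a, a = (K + 1) * 4 := ⟨_, rfl⟩
  obtain ⟨c₁, hc₁⟩ : ∃ c₁, c₁ = p + K + 1 + 2 * (p - 1) * (2 + a) + (p + 1) := ⟨_, rfl⟩
  refine ⟨c₀ + c₁, fun n hn => ?_⟩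
  induction n using Nat.strong_induction_on with
  | _ n ih =>
    rcases Nat.lt_or_ge 1 n with h | h
    · obtain ⟨l, hl⟩ : ∃ l, l = Nat.clog 2 n := ⟨_, rfl⟩
      rw [← hl]
      have hnl : n ≤ 2 ^ l := by
        rw [hl]
        exact Nat.le_pow_clog one_lt_two n
      have hl2 : Nat.clog 2 ((n + 1) / 2) + 1 = l := by
        have h1 := Nat.clog_of_two_le one_lt_two (by omega : 2 ≤ n)
        have e : n + 2 - 1 = n + 1 := by omega
        rw [e] at h1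
        rw [hl, h1]
      have hL : ∀ w, 1 ≤ w → w ≤ (n + 1) / 2 → Sh p T w (2 ^ ((c₀ + c₁) * l ^ 2)) := by
        intro w hw1 hw2
        refine (ih w (by omega) hw1).mono (Nat.pow_le_pow_right (by norm_num)
          (Nat.mul_le_mul_left _ (Nat.pow_le_pow_left ?_ _)))
        have h1 := Nat.clog_mono_right 2 hw2
        omega
      have hk : (n / 2 + 1) * (K * (2 * n)) < 2 ^ (2 * l + a) := by
        have h1 : n / 2 + 1 ≤ n := by omega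
        have h2 : a < 2 ^ a := Nat.lt_two_pow_self
        have h3 : n * n ≤ 2 ^ l * 2 ^ l := Nat.mul_le_mul hnl hnl
        have h4 : 2 ^ (2 * l + a) = 2 ^ l * 2 ^ l * 2 ^ a := by
          rw [pow_add, two_mul, pow_add]
        have h5 : 0 < 2 ^ l * 2 ^ l := by positivity
        rw [h4]
        calc (n / 2 + 1) * (K * (2 * n)) ≤ n * (K * (2 * n)) := Nat.mul_le_mul_right _ h1
          _ = n * n * (2 * K) := by ring
          _ ≤ 2 ^ l * 2 ^ l * (2 * K) := Nat.mul_le_mul_right _ h3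
          _ < 2 ^ l * 2 ^ l * 2 ^ a := Nat.mul_lt_mul_of_pos_left (by omega) h5
      have h1 := recursion hp T K hK n (2 * l + a) _ h hL hk
      refine h1.mono ?_
      have h2 : p * (K * n) * (4 ^ ((p - 1) * (2 * l + a)) *
          ((p + 1) * 2 ^ ((c₀ + c₁) * l ^ 2))) ≤ 2 ^ p * (2 ^ K * 2 ^ l) *
            (2 ^ (2 * ((p - 1) * (2 * l + a))) * (2 ^ (p + 1) * 2 ^ ((c₀ + c₁) * l ^ 2))) := by
        refine Nat.mul_le_mul (Nat.mul_le_mul Nat.lt_two_pow_self.le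
          (Nat.mul_le_mul Nat.lt_two_pow_self.le hnl)) (Nat.mul_le_mul ?_
            (Nat.mul_le_mul_right _ Nat.lt_two_pow_self.le))
        rw [pow_mul 2 2]
        norm_num
      refine h2.trans ?_
      rw [← pow_add, ← pow_add, ← pow_add, ← pow_add, ← pow_add]
      apply Nat.pow_le_pow_right (by norm_num)
      have h3 : p + (K + l) + (2 * ((p - 1) * (2 * l + a)) + (p + 1 + (c₀ + c₁) * l ^ 2)) ≤
          c₁ * (l + 1) + (c₀ + c₁) * l ^ 2 := by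
        have h4 : p + (K + l) + (2 * ((p - 1) * (2 * l + a)) + (p + 1)) ≤ c₁ * (l + 1) := by
          rw [hc₁]
          obtain ⟨P, hP⟩ : ∃ P, P = p - 1 := ⟨_, rfl⟩
          rw [← hP]
          nlinarith [Nat.zero_le (P * a * l), Nat.zero_le (p * l), Nat.zero_le (K * l),
            Nat.zero_le (P * l), Nat.zero_le P]
        omega
      refine h3.trans ?_
      have h5 : c₁ * (l + 1) ≤ (c₀ + c₁) * (2 * l + 1) :=
        Nat.mul_le_mul (Nat.le_add_left _ _) (by omega)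
      have h6 : (c₀ + c₁) * (l + 1) ^ 2 = (c₀ + c₁) * (2 * l + 1) + (c₀ + c₁) * l ^ 2 := by ring
      rw [h6]
      omega
    · have h1 : n = 1 := by omega
      subst h1
      refine h0.mono ?_
      refine Nat.lt_two_pow_self.le.trans (Nat.pow_le_pow_right (by norm_num) ?_)
      have h2 : 1 ≤ (Nat.clog 2 1 + 1) ^ 2 := Nat.one_le_pow _ _ (Nat.succ_pos _)
      calc c₀ ≤ (c₀ + c₁) * 1 := by omega
        _ ≤ _ := Nat.mul_le_mul_left _ h2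

/-- PROOF. `mm_linear`, `quasi`, `pow_le_autGrowth`: `2 ^ mm n ≤ p ^ mm n ≤ q C (2 ^ (c (ℓ + 1)^2) + 1) ^ d ≤ 2 ^ (q + C + d (c (ℓ + 1)^2 + 1))` (as `x ≤ 2 ^ x`), so `mm n ≤ q + C + d (c (ℓ + 1)^2 + 1) ≤ C' (ℓ + 1)^2`. -/
theorem mm_log {p : ℕ} (hp : p.Prime) (T : Finset H)
    (hT : Subgroup.closure (T : Set H) = ⊤) (h : PolyBdd (autGrowth T)) :
    ∃ C : ℕ, ∀ n, 1 ≤ n → mm p T n ≤ C * (Nat.clog 2 n + 1) ^ 2 := by
  obtain ⟨K, hK⟩ := mm_linear hp T hT h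
  obtain ⟨c, hc⟩ := quasi hp T K hK
  obtain ⟨q, hq⟩ := pow_le_autGrowth hp T hT
  obtain ⟨C, d, hC⟩ := h
  refine ⟨q + C + (c + 1) * d, fun n hn => ?_⟩
  obtain ⟨l, hl⟩ : ∃ l, l = Nat.clog 2 n := ⟨_, rfl⟩
  have h1 := hc n hn
  rw [← hl] at h1 ⊢
  obtain ⟨E, hE⟩ : ∃ E, E = c * (l + 1) ^ 2 := ⟨_, rfl⟩
  rw [← hE] at h1
  have h2 := hq n _ hn h1
  have h3 := hC (2 ^ E)
  have h4 : 2 ^ mm p T n ≤ 2 ^ (q + (C + (E + 1) * d)) := by
    calc 2 ^ mm p T n ≤ p ^ mm p T n := Nat.pow_le_pow_left hp.two_le _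
      _ ≤ q * autGrowth T (2 ^ E) := h2
      _ ≤ q * (C * (2 ^ E + 1) ^ d) := Nat.mul_le_mul_left _ h3
      _ ≤ 2 ^ q * (2 ^ C * (2 ^ (E + 1)) ^ d) := by
        refine Nat.mul_le_mul Nat.lt_two_pow_self.le (Nat.mul_le_mul Nat.lt_two_pow_self.le
          (Nat.pow_le_pow_left ?_ _))
        have h5 : 1 ≤ 2 ^ E := Nat.one_le_two_pow
        rw [pow_succ]
        omega
      _ = _ := by rw [← pow_mul, ← pow_add, ← pow_add]
  have h5 := (Nat.pow_le_pow_iff_right one_lt_two).1 h4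
  refine h5.trans ?_
  have h6 : 1 ≤ (l + 1) ^ 2 := Nat.one_le_pow _ _ (Nat.succ_pos _)
  have h7 : q ≤ q * (l + 1) ^ 2 := Nat.le_mul_of_pos_right _ h6
  have h8 : C ≤ C * (l + 1) ^ 2 := Nat.le_mul_of_pos_right _ h6
  have h9 : (E + 1) * d ≤ (c + 1) * d * (l + 1) ^ 2 := by
    have h10 : E + 1 ≤ (c + 1) * (l + 1) ^ 2 := by
      rw [hE, Nat.succ_mul]
      omega
    calc (E + 1) * d ≤ (c + 1) * (l + 1) ^ 2 * d := Nat.mul_le_mul_right _ h10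
      _ = _ := by ring
  calc q + (C + (E + 1) * d) ≤ q * (l + 1) ^ 2 + (C * (l + 1) ^ 2 + (c + 1) * d * (l + 1) ^ 2) :=
        Nat.add_le_add h7 (Nat.add_le_add h8 h9)
    _ = _ := by ring

end ALQ
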