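import Pool.Agent.ALQ.G1

/-!
# [ALQ-G2] calculus with x - 1
-/

set_option autoImplicit false

namespace ALQ

open AG ALG

variable {H : Type*} [Group H]

theorem dl_mul (p : ℕ) (x y : H) : dl p (x * y) = dl p x + dl p y + dl p x * dl p y := by
  unfold dl
  rw [map_mul, sub_mul, mul_sub, mul_sub, mul_one, one_mul, mul_one]
  abel

/-- PROOF. `0 = dl (x x⁻¹) = dl x + dl x⁻¹ + dl x * dl x⁻¹` and `dl x * dl x⁻¹ ∈ FF (n + 1)`. -/
theorem dl_inv (p : ℕ) {n : ℕ} {x : H} (hx : dl p x ∈ FF p H n) :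
    dl p x⁻¹ + dl p x ∈ FF p H (n + 1) := by
  have h1 := dl_mul p x x⁻¹
  rw [mul_inv_cancel] at h1
  have h2 : dl p (1 : H) = 0 := by
    unfold dl
    rw [map_one, sub_self]
  rw [h2] at h1
  have h3 : dl p x⁻¹ + dl p x = -(dl p x * dl p x⁻¹) := by
    rw [eq_neg_iff_add_eq_zero, h1]
    abel
  rw [h3]
  exact Submodule.neg_mem _ (FF_mul p hx (dl_mem_one p _))

/-- PROOF. `x y x⁻¹ y⁻¹ - 1 = (x y - y x) x⁻¹ y⁻¹`, `x y - y x = dl x * dl y - dl y * dl x ∈ FF (i + j)`, and `x⁻¹ y⁻¹ = 1 + (element of FF 1)`. -/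
theorem dl_comm (p : ℕ) {i j : ℕ} {x y : H} (hx : dl p x ∈ FF p H i) (hy : dl p y ∈ FF p H j) :
    dl p (x * y * x⁻¹ * y⁻¹) - (dl p x * dl p y - dl p y * dl p x) ∈ FF p H (i + j + 1) := by
  have h1 : dl p (x * y * x⁻¹ * y⁻¹) =
      (dl p x * dl p y - dl p y * dl p x) * MonoidAlgebra.of (ZMod p) H (x⁻¹ * y⁻¹) := by
    have h2 : dl p x * dl p y - dl p y * dl p x = MonoidAlgebra.of (ZMod p) H (x * y) -
        MonoidAlgebra.of (ZMod p) H (y * x) := by
      unfold dl
      rw [map_mul, map_mul]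
      noncomm_ring
    rw [h2, sub_mul, ← map_mul, ← map_mul]
    unfold dl
    congr 2
    · group
    · have h3 : y * x * (x⁻¹ * y⁻¹) = 1 := by group
      rw [h3, map_one]
  have h4 : MonoidAlgebra.of (ZMod p) H (x⁻¹ * y⁻¹) = 1 + dl p (x⁻¹ * y⁻¹) := by
    unfold dl
    abel
  have h5 : dl p (x * y * x⁻¹ * y⁻¹) - (dl p x * dl p y - dl p y * dl p x) =
      (dl p x * dl p y - dl p y * dl p x) * dl p (x⁻¹ * y⁻¹) := by
    rw [h1, h4, mul_add, mul_one]
    abel
  rw [h5]
  refine FF_mul p (Submodule.sub_mem _ (FF_mul p hx hy) ?_) (dl_mem_one p _)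
  have h6 := FF_mul p hy hx
  rwa [add_comm j i] at h6

/-- PROOF. characteristic `p`: `sub_pow_char` for the commuting elements `x`, `1` (`Commute.add_pow_prime_eq`, `sub_pow_char_of_commute`). -/
theorem dl_pow_char (p : ℕ) (hp : p.Prime) (x : H) : dl p (x ^ p) = dl p x ^ p := by
  have := Fact.mk hp
  have hch : CharP (MonoidAlgebra (ZMod p) H) p :=
    charP_of_injective_algebraMap (algebraMap (ZMod p) (MonoidAlgebra (ZMod p) H)).injective p
  unfold dl
  rw [sub_pow_char_of_commute p (Commute.one_right _), one_pow, map_pow]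

/-- PROOF. Induction on the list with `dl_mul`: the sum is in `FF n`, so the product term is in `FF (2 n) ≤ FF (n + 1)`. -/
theorem dl_list (p : ℕ) {n : ℕ} (hn : 1 ≤ n) (l : List H) (hl : ∀ x ∈ l, dl p x ∈ FF p H n) :
    dl p l.prod - (l.map (dl p)).sum ∈ FF p H (n + 1) := by
  induction l with
  | nil =>
    rw [List.prod_nil, List.map_nil, List.sum_nil]
    have h2 : dl p (1 : H) = 0 := by
      unfold dl
      rw [map_one, sub_self]
    rw [h2, sub_self]
    exact Submodule.zero_mem _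
  | cons x l ih =>
    have hx := hl x (List.mem_cons_self ..)
    have hl' : ∀ y ∈ l, dl p y ∈ FF p H n := fun y hy => hl y (List.mem_cons_of_mem _ hy)
    have h1 := ih hl'
    have h2 : (l.map (dl p)).sum ∈ FF p H n := by
      apply list_sum_mem
      intro z hz
      obtain ⟨y, hy, rfl⟩ := List.mem_map.1 hz
      exact hl' y hy
    have h3 : dl p l.prod ∈ FF p H n := by
      have h4 := Submodule.add_mem _ (FF_anti p n h1) h2
      rwa [sub_add_cancel] at h4
    rw [List.prod_cons, List.map_cons, List.sum_cons, dl_mul]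
    have h5 : dl p x + dl p l.prod + dl p x * dl p l.prod - (dl p x + (l.map (dl p)).sum) =
        (dl p l.prod - (l.map (dl p)).sum) + dl p x * dl p l.prod := by abel
    rw [h5]
    exact Submodule.add_mem _ h1 (FF_le p (by omega) (FF_mul p hx h3))

/-- PROOF. `dl_list` with `List.replicate`. -/
theorem dl_npow (p : ℕ) {n : ℕ} (hn : 1 ≤ n) {x : H} (hx : dl p x ∈ FF p H n) (k : ℕ) :
    dl p (x ^ k) - k • dl p x ∈ FF p H (n + 1) := by
  have h1 := dl_list p hn (List.replicate k x) (fun y hy => by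
    rw [(List.mem_replicate.1 hy).2]
    exact hx)
  rwa [List.prod_replicate, List.map_replicate, List.sum_replicate] at h1

/-- PROOF. `a ^ p - b ^ p = ∑ a^i (a - b) b^(p-1-i)`; induction on `k`. -/
theorem FF_pow_sub (p : ℕ) {n : ℕ} {a b : MonoidAlgebra (ZMod p) H} (ha : a ∈ FF p H n)
    (hb : b ∈ FF p H n) (hab : a - b ∈ FF p H (n + 1)) (k : ℕ) (hk : 1 ≤ k) :
    a ^ k - b ^ k ∈ FF p H (k * n + 1) := by
  induction k, hk using Nat.le_induction with
  | base =>
    rw [pow_one, pow_one, Nat.one_mul]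
    exact hab
  | succ k hk ih =>
    have h1 : a ^ (k + 1) - b ^ (k + 1) = (a ^ k - b ^ k) * a + b ^ k * (a - b) := by
      rw [pow_succ, pow_succ, sub_mul, mul_sub]
      abel
    rw [h1]
    refine Submodule.add_mem _ ?_ ?_
    · have h2 := FF_mul p ih ha
      have h3 : k * n + 1 + n = (k + 1) * n + 1 := by ring
      rwa [h3] at h2
    · have h2 := FF_mul p (FF_pow p hb k) hab
      have h3 : k * n + (n + 1) = (k + 1) * n + 1 := by ring
      rwa [h3] at h2

end ALQ
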