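import Pool.Agent.ALQ.G6
import Pool.Agent.ALQ.G15
import Pool.Agent.ALQ.A10

/-!
# [ALQ-G20] the dimension of the quotients of the group algebra
-/

set_option autoImplicit false

namespace ALQ

open AG ALG

variable {H : Type*} [Group H]

theorem g20_layer {p : ℕ} (hp : p.Prime) [Fact p.Prime] (T : Finset H)
    (hT : Subgroup.closure (T : Set H) = ⊤) (n s : ℕ) (hs : s ≤ n) :
    FF p H s ≤ Submodule.span (ZMod p) {v | ∃ a : JJ p T n → Fin p,
      ∑ j, (a j).val * wJ p T n j = s ∧ v = act (opR hp T n) (std fun j => (a j).val) 1} ⊔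
        FF p H (s + 1) := by
  have h1 : ∀ l : List (JJ p T n), wt (wJ p T n) l = s → act (opR hp T n) l 1 ∈
      Submodule.span (ZMod p) {v | ∃ a : JJ p T n → Fin p,
        ∑ j, (a j).val * wJ p T n j = s ∧ v = act (opR hp T n) (std fun j => (a j).val) 1} ⊔
          FF p H (s + 1) := by
    intro l hl
    have h2 := (fopR hp T n).std_span hp.two_le (i := 0)
      (Submodule.mem_top : (1 : MonoidAlgebra (ZMod p) H) ∈ FF p H 0) l (by omega)
    rw [hl, zero_add] at h2
    exact h2
  refine (FF_span p T hT s).trans (sup_le ?_ le_sup_right)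
  rw [Submodule.span_le]
  rintro v ⟨τ, hτ, hτT, rfl⟩
  have h2 := genR hp T n τ hτT (by omega)
  rw [hτ] at h2
  have h3 : Submodule.span (ZMod p)
      {v | ∃ l : List (JJ p T n), wt (wJ p T n) l = s ∧ v = act (opR hp T n) l 1} ⊔
        FF p H (s + 1) ≤ Submodule.span (ZMod p) {v | ∃ a : JJ p T n → Fin p,
      ∑ j, (a j).val * wJ p T n j = s ∧ v = act (opR hp T n) (std fun j => (a j).val) 1} ⊔
        FF p H (s + 1) := by
    refine sup_le ?_ le_sup_right
    rw [Submodule.span_le]
    rintro v ⟨l, hl, rfl⟩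
    exact h1 l hl
  exact h3 h2

theorem g20_top {p : ℕ} (hp : p.Prime) [Fact p.Prime] (T : Finset H)
    (hT : Subgroup.closure (T : Set H) = ⊤) (n s : ℕ) (hs : s ≤ n) :
    (⊤ : Submodule (ZMod p) (MonoidAlgebra (ZMod p) H)) ≤
      Submodule.span (ZMod p) {v | ∃ a : JJ p T n → Fin p,
        ∑ j, (a j).val * wJ p T n j < s ∧ v = act (opR hp T n) (std fun j => (a j).val) 1} ⊔
          FF p H s := by
  induction s with
  | zero => exact le_sup_right
  | succ s ih =>
    refine (ih (by omega)).trans (sup_le ?_ ?_)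
    · refine le_sup_of_le_left (Submodule.span_mono ?_)
      rintro v ⟨a, ha, rfl⟩
      exact ⟨a, by omega, rfl⟩
    · refine (g20_layer hp T hT n s (by omega)).trans (sup_le_sup_right (Submodule.span_mono ?_) _)
      rintro v ⟨a, ha, rfl⟩
      exact ⟨a, by omega, rfl⟩

theorem g20_span {p : ℕ} (hp : p.Prime) (T : Finset H)
    (hT : Subgroup.closure (T : Set H) = ⊤) (n : ℕ) (hn : 1 ≤ n) :
    ∃ v : Mono p (fun i => mm p T (i + 1)) n → MonoidAlgebra (ZMod p) H ⧸ (aug p H) ^ n,
      Submodule.span (ZMod p) (Set.range v) = ⊤ := by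
  have := Fact.mk hp
  obtain ⟨m, rfl⟩ : ∃ m, n = m + 1 := ⟨n - 1, by omega⟩
  have htop := g20_top hp T hT (m + 1) (m + 1) le_rfl
  obtain ⟨v', hv'⟩ : ∃ v' : Mono p (fun i => mm p T (i + 1)) (m + 1) →
      MonoidAlgebra (ZMod p) H ⧸ (aug p H) ^ (m + 1),
      v' = fun a => Submodule.Quotient.mk
        (act (opR hp T (m + 1)) (std fun j => (a.1 j).val) 1) := ⟨_, rfl⟩
  refine ⟨v', ?_⟩
  rw [eq_top_iff]
  intro q hq
  clear hq
  obtain ⟨x, rfl⟩ := Submodule.Quotient.mk_surjective _ q
  have hx : x ∈ Submodule.span (ZMod p) {v | ∃ a : JJ p T (m + 1) → Fin p,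
      ∑ j, (a j).val * wJ p T (m + 1) j < m + 1 ∧
        v = act (opR hp T (m + 1)) (std fun j => (a j).val) 1} ⊔ (aug p H) ^ (m + 1) :=
    htop Submodule.mem_top
  obtain ⟨s, hs, t, ht, rfl⟩ := Submodule.mem_sup.mp hx
  rw [Submodule.Quotient.mk_add, (Submodule.Quotient.mk_eq_zero _).mpr ht, add_zero]
  clear hx
  induction hs using Submodule.span_induction with
  | mem x hx =>
    obtain ⟨a, ha, rfl⟩ := hx
    refine Submodule.subset_span ⟨⟨a, ?_⟩, by rw [hv']⟩
    refine lt_of_eq_of_lt (Finset.sum_congr rfl fun j _ => ?_) ha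
    exact mul_comm _ _
  | zero => rw [Submodule.Quotient.mk_zero]; exact Submodule.zero_mem _
  | add x y _ _ hx hy => rw [Submodule.Quotient.mk_add]; exact Submodule.add_mem _ hx hy
  | smul r x _ hx => rw [Submodule.Quotient.mk_smul]; exact Submodule.smul_mem _ _ hx

/-- the quotients of the group algebra by the powers of the augmentation ideal are finite dimensional -/
theorem finite_quotient {p : ℕ} (hp : p.Prime) (T : Finset H)
    (hT : Subgroup.closure (T : Set H) = ⊤) (n : ℕ) (hn : 1 ≤ n) :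
    Module.Finite (ZMod p) (MonoidAlgebra (ZMod p) H ⧸ (aug p H) ^ n) := by
  obtain ⟨v, hv⟩ := g20_span hp T hT n hn
  have hfin : Finite (Mono p (fun i => mm p T (i + 1)) n) := by
    unfold Mono
    infer_instance
  exact ⟨hv ▸ Submodule.fg_span (Set.finite_range v)⟩

/-- PROOF. `1 ≤ n`, letters `JJ p T n`, operators `opR`, `u = 1 ∈ FF 0`. For `s < n`: `FF s ≤ span {act (opR) (std a) 1 | ∑ a j w j = s} ⊔ FF (s + 1)` by `FF_span`, `genR`, `FOp.std_span` (`fopR`, `i = 0`). By induction on `s ≤ n`: `⊤ = FF 0 ≤ span {act (opR) (std a) 1 | a : JJ p T n → Fin p, ∑ a j w j < s} ⊔ FF s`. So the quotient by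
`FF n = aug ^ n` is spanned by the classes of the `act (opR) (std a) 1`, `a ∈ Mono p (fun i => mm p T (i + 1)) n` (the index type and the weights are the same by definition: `(x.1.val + 1) * (a x).val`), a finite family; `finrank_range_le_card`-like lemma (see the end of the proof of
`ALG.finrank_le`). -/
theorem finrank_quotient_le {p : ℕ} (hp : p.Prime) (T : Finset H)
    (hT : Subgroup.closure (T : Set H) = ⊤) (n : ℕ) (hn : 1 ≤ n) :
    Module.finrank (ZMod p) (MonoidAlgebra (ZMod p) H ⧸ (aug p H) ^ n) ≤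
      Nat.card (Mono p (fun i => mm p T (i + 1)) n) := by
  have := Fact.mk hp
  obtain ⟨v, hv⟩ := g20_span hp T hT n hn
  have hfin : Finite (Mono p (fun i => mm p T (i + 1)) n) := by
    unfold Mono
    infer_instance
  have := Fintype.ofFinite (Mono p (fun i => mm p T (i + 1)) n)
  rw [Nat.card_eq_fintype_card]
  exact finrank_le_of_span_eq_top hv

end ALQ
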