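import Pool.Agent.ALQ.Defs
import Pool.Agent.ALG.P8

/-!
# [ALQ-G21] counting
-/

set_option autoImplicit false

namespace ALQ

open AG ALG

/-- PROOF. `y / (1 + y) ≤ 1 - exp (-y)` as `1 + y ≤ exp y`; so `(1 - exp (-y))⁻¹ ≤ 1 + 1 / y ≤ exp (1 / y)`. -/
theorem inv_one_sub_exp_le (y : ℝ) (hy : 0 < y) :
    (1 - Real.exp (-y))⁻¹ ≤ Real.exp (1 / y) := by
  have h1 : 0 < 1 + y := by linarith
  have h2 : Real.exp (-y) ≤ 1 / (1 + y) := by
    rw [Real.exp_neg, ← one_div]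
    apply one_div_le_one_div_of_le h1
    have := Real.add_one_le_exp y
    linarith
  have h3 : y / (1 + y) ≤ 1 - Real.exp (-y) := by
    have h4 : y / (1 + y) = 1 - 1 / (1 + y) := by
      field_simp
      ring
    rw [h4]
    linarith
  have h5 : 0 < y / (1 + y) := div_pos hy h1
  calc (1 - Real.exp (-y))⁻¹ ≤ (y / (1 + y))⁻¹ := inv_anti₀ h5 h3
    _ = 1 / y + 1 := by
      rw [inv_div]
      field_simp
    _ ≤ Real.exp (1 / y) := Real.add_one_le_exp _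

/-- PROOF. As in `ALG.count_le`: `Nat.card (Mono p c n) * x ^ n ≤ ∑_{a ∈ Mono} x ^ (∑ (i+1) a) ≤ ∏_{(i,j)} ∑_{a < p} (x ^ (i+1)) ^ a ≤ ∏_{i < n} ((1 - x ^ (i+1))⁻¹) ^ c i` for `0 < x < 1` (`p8_geom`). -/
theorem card_mono_mul_le (p : ℕ) (c : ℕ → ℕ) (x : ℝ) (hx : 0 < x) (hx1 : x < 1) (n : ℕ) :
    (Nat.card (Mono p c n) : ℝ) * x ^ n ≤ ∏ i ∈ Finset.range n, ((1 - x ^ (i + 1))⁻¹) ^ c i := by
  classical
  obtain ⟨w, hw⟩ : ∃ w : ((Σ i : Fin n, Fin (c i)) → Fin p) → ℕ,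
    w = fun a => ∑ x, (x.1.val + 1) * (a x).val := ⟨_, rfl⟩
  have hcard : (Nat.card (Mono p c n) : ℝ) * x ^ n ≤
      ∑ a : ((Σ i : Fin n, Fin (c i)) → Fin p), x ^ w a := by
    have e : Nat.card (Mono p c n) = (Finset.univ.filter fun a => w a < n).card := by
      unfold Mono
      rw [Nat.card_eq_fintype_card, Fintype.card_subtype, hw]
    rw [e]
    calc ((Finset.univ.filter fun a => w a < n).card : ℝ) * x ^ n =
          ∑ a ∈ Finset.univ.filter fun a => w a < n, x ^ n := by rw [Finset.sum_const, nsmul_eq_mul]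
      _ ≤ ∑ a ∈ Finset.univ.filter fun a => w a < n, x ^ w a := by
        refine Finset.sum_le_sum fun a ha => ?_
        exact pow_le_pow_of_le_one hx.le hx1.le (Finset.mem_filter.mp ha).2.le
      _ ≤ ∑ a, x ^ w a := by
        refine Finset.sum_le_sum_of_subset_of_nonneg (Finset.filter_subset _ _) fun a _ _ => ?_
        positivity
  have hprod : ∑ a : ((Σ i : Fin n, Fin (c i)) → Fin p), x ^ w a =
      ∏ t : (Σ i : Fin n, Fin (c i)), ∑ e : Fin p, (x ^ (t.1.val + 1)) ^ e.val := by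
    rw [Finset.prod_univ_sum, Fintype.piFinset_univ]
    refine Finset.sum_congr rfl fun a _ => ?_
    rw [hw]
    simp only
    rw [← Finset.prod_pow_eq_pow_sum]
    refine Finset.prod_congr rfl fun t _ => ?_
    rw [pow_mul]
  have hxi : ∀ i : ℕ, x ^ (i + 1) ≤ x := fun i => by
    calc x ^ (i + 1) ≤ x ^ 1 := pow_le_pow_of_le_one hx.le hx1.le (by omega)
      _ = x := pow_one x
  have hle : ∏ t : (Σ i : Fin n, Fin (c i)), ∑ e : Fin p, (x ^ (t.1.val + 1)) ^ e.val ≤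
      ∏ t : (Σ i : Fin n, Fin (c i)), (1 - x ^ (t.1.val + 1))⁻¹ := by
    refine Finset.prod_le_prod (fun t _ => Finset.sum_nonneg fun e _ => by positivity) fun t _ => ?_
    have h2 : 0 ≤ x ^ (t.1.val + 1) := by positivity
    exact p8_geom p _ h2 (lt_of_le_of_lt (hxi _) hx1)
  have hexp : ∏ t : (Σ i : Fin n, Fin (c i)), (1 - x ^ (t.1.val + 1))⁻¹ =
      ∏ i ∈ Finset.range n, ((1 - x ^ (i + 1))⁻¹) ^ c i := by
    rw [Fintype.prod_sigma, ← Fin.prod_univ_eq_prod_range (fun i => ((1 - x ^ (i + 1))⁻¹) ^ c i) n]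
    refine Finset.prod_congr rfl fun i _ => ?_
    show ∏ _y : Fin (c i), (1 - x ^ (i.val + 1))⁻¹ = _
    rw [Finset.prod_const, Finset.card_univ, Fintype.card_fin]
  rw [← hexp]
  rw [hprod] at hcard
  exact hcard.trans hle

end ALQ
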