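import Pool.Agent.ALQ.G21

/-!
# [ALQ-G22] the final estimate
-/

set_option autoImplicit false

namespace ALQ

open AG ALG

theorem g22_clog (n : ℕ) (hn : 1 ≤ n) : (Nat.clog 2 n : ℝ) ≤ 2 * Real.log n + 1 := by
  rcases Nat.lt_or_ge 1 n with h | h
  · have h1 := Nat.pow_pred_clog_lt_self one_lt_two h
    have h2 : 1 ≤ Nat.clog 2 n := Nat.clog_pos one_lt_two h
    obtain ⟨m, hm⟩ : ∃ m, Nat.clog 2 n = m + 1 := ⟨Nat.clog 2 n - 1, by omega⟩
    rw [hm] at h1 ⊢
    have h3 : (2 : ℝ) ^ m ≤ n := by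
      have h4 : 2 ^ m < n := h1
      exact_mod_cast h4.le
    have h4 := Real.log_le_log (by positivity) h3
    rw [Real.log_pow] at h4
    have h5 := Real.log_two_gt_d9
    have h6 : (m : ℝ) * (1 / 2) ≤ m * Real.log 2 :=
      mul_le_mul_of_nonneg_left (by linarith) (Nat.cast_nonneg m)
    push_cast
    linarith
  · have h1 : n = 1 := by omega
    subst h1
    simp

theorem g22_log (n : ℕ) (hn : 1 ≤ n) : 1 ≤ Real.log ((n : ℝ) + 2) := by
  rw [Real.le_log_iff_exp_le (by positivity)]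
  have h1 := Real.exp_one_lt_d9
  have h2 : (1 : ℝ) ≤ n := by exact_mod_cast hn
  linarith

/-- PROOF. `∑_{i < n} 1/(i+1) ≤ 1 + log n` (`harmonic_le_one_add_log`), each summand is at most `K (clog 2 n + 1)^2 / (i + 1)`. -/
theorem sum_log_le (K : ℕ) (c : ℕ → ℕ) (hc : ∀ i, c i ≤ K * (Nat.clog 2 (i + 1) + 1) ^ 2) (n : ℕ)
    (hn : 1 ≤ n) :
    ∑ i ∈ Finset.range n, (c i : ℝ) / (i + 1) ≤
      K * ((Nat.clog 2 n : ℝ) + 1) ^ 2 * (1 + Real.log n) := by
  have h1 : ∀ i ∈ Finset.range n, (c i : ℝ) / (i + 1) ≤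
      K * ((Nat.clog 2 n : ℝ) + 1) ^ 2 * (1 / ((i : ℝ) + 1)) := by
    intro i hi
    have h2 : (i : ℝ) + 1 > 0 := by positivity
    have h3 : (c i : ℝ) ≤ K * ((Nat.clog 2 n : ℝ) + 1) ^ 2 := by
      have h4 : c i ≤ K * (Nat.clog 2 n + 1) ^ 2 := by
        refine (hc i).trans (Nat.mul_le_mul_left _ (Nat.pow_le_pow_left (Nat.succ_le_succ ?_) _))
        exact Nat.clog_mono_right 2 (by have := Finset.mem_range.1 hi; omega)
      exact_mod_cast h4
    rw [mul_one_div]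
    exact div_le_div_of_nonneg_right h3 h2.le
  refine (Finset.sum_le_sum h1).trans ?_
  rw [← Finset.mul_sum]
  refine mul_le_mul_of_nonneg_left ?_ (by positivity)
  have h2 := harmonic_le_one_add_log n
  have h3 : ((harmonic n : ℚ) : ℝ) = ∑ i ∈ Finset.range n, 1 / ((i : ℝ) + 1) := by
    unfold harmonic
    push_cast
    exact Finset.sum_congr rfl fun i _ => by rw [one_div]
  rw [← h3]
  exact h2

/-- PROOF. `n ≥ 1`: `card_mono_mul_le` with `x = exp (- 1 / √n)`, `x ^ n = exp (- √n)`, `x ^ (i+1) = exp (- (i+1) / √n)`, `inv_one_sub_exp_le`: `Nat.card ≤ exp (√n + √n ∑_{i<n} c i / (i+1))`. `sum_log_le`; `clog 2 n ≤ log n / log 2 + 1 ≤ C₁ log (n + 2)`, `1 ≤ log (n + 2)` (`n ≥ 1`, `exp 1 < 3`). `n = 0`: `Mono p c 0` is empty, the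
left side is `0`. -/
theorem card_mono_le (p K : ℕ) (c : ℕ → ℕ)
    (hc : ∀ i, c i ≤ K * (Nat.clog 2 (i + 1) + 1) ^ 2) :
    ∃ C : ℝ, 0 < C ∧ ∀ n : ℕ, (Nat.card (Mono p c n) : ℝ) ≤
      Real.exp (C * Real.sqrt n * Real.log (n + 2) ^ 3) := by
  refine ⟨1 + 32 * K, by positivity, fun n => ?_⟩
  rcases Nat.eq_zero_or_pos n with hn | hn
  · subst hn
    have h1 : IsEmpty (Mono p c 0) := ⟨fun a => absurd a.2 (Nat.not_lt_zero _)⟩
    rw [Nat.card_of_isEmpty, Nat.cast_zero]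
    exact (Real.exp_pos _).le
  have hn1 : (1 : ℝ) ≤ n := by exact_mod_cast hn
  obtain ⟨s, hs⟩ : ∃ s, s = Real.sqrt n := ⟨_, rfl⟩
  have hs0 : 0 < s := by
    rw [hs]
    exact Real.sqrt_pos.2 (by linarith)
  have hss : s * s = n := by
    rw [hs]
    exact Real.mul_self_sqrt (by linarith)
  rw [← hs]
  obtain ⟨x, hx⟩ : ∃ x, x = Real.exp (-(1 / s)) := ⟨_, rfl⟩
  have hx0 : 0 < x := by rw [hx]; exact Real.exp_pos _
  have hx1 : x < 1 := by
    rw [hx]
    exact Real.exp_lt_one_iff.2 (by have := one_div_pos.2 hs0; linarith)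
  have h1 := card_mono_mul_le p c x hx0 hx1 n
  have h2 : ∀ i ∈ Finset.range n, ((1 - x ^ (i + 1))⁻¹) ^ c i ≤
      Real.exp (s * ((c i : ℝ) / (i + 1))) := by
    intro i _
    have hi : (0 : ℝ) < (i : ℝ) + 1 := by positivity
    have h3 : x ^ (i + 1) = Real.exp (-(((i : ℝ) + 1) / s)) := by
      rw [hx, ← Real.exp_nat_mul]
      congr 1
      push_cast
      ring
    have h4 := inv_one_sub_exp_le (((i : ℝ) + 1) / s) (div_pos hi hs0)
    rw [← h3] at h4
    have h5 : 0 ≤ (1 - x ^ (i + 1))⁻¹ := by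
      have h6 : x ^ (i + 1) ≤ 1 := pow_le_one₀ hx0.le hx1.le
      exact inv_nonneg.2 (by linarith)
    refine (pow_le_pow_left₀ h5 h4 _).trans ?_
    rw [← Real.exp_nat_mul]
    apply le_of_eq
    congr 1
    field_simp
  have h3 : (Nat.card (Mono p c n) : ℝ) * x ^ n ≤
      Real.exp (s * ∑ i ∈ Finset.range n, (c i : ℝ) / (i + 1)) := by
    refine h1.trans ?_
    rw [Finset.mul_sum, Real.exp_sum]
    refine Finset.prod_le_prod (fun i _ => ?_) h2
    have h6 : x ^ (i + 1) ≤ 1 := pow_le_one₀ hx0.le hx1.le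
    exact pow_nonneg (inv_nonneg.2 (by linarith)) _
  have h4 : x ^ n = Real.exp (-s) := by
    rw [hx, ← Real.exp_nat_mul]
    congr 1
    rw [← hss]
    field_simp
  rw [h4] at h3
  have h5 : (Nat.card (Mono p c n) : ℝ) ≤
      Real.exp (s * ∑ i ∈ Finset.range n, (c i : ℝ) / (i + 1)) * Real.exp s := by
    have h6 := mul_le_mul_of_nonneg_right h3 (Real.exp_pos s).le
    rwa [mul_assoc, ← Real.exp_add, neg_add_cancel, Real.exp_zero, mul_one] at h6
  refine h5.trans ?_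
  rw [← Real.exp_add]
  apply Real.exp_le_exp.2
  have h6 := sum_log_le K c hc n hn
  obtain ⟨l, hl⟩ : ∃ l, l = Real.log ((n : ℝ) + 2) := ⟨_, rfl⟩
  have hl1 : 1 ≤ l := by
    rw [hl]
    exact g22_log n hn
  have hln : Real.log n ≤ l := by
    rw [hl]
    exact Real.log_le_log (by linarith) (by linarith)
  have hlog0 : 0 ≤ Real.log n := Real.log_nonneg hn1
  have hcl := g22_clog n hn
  rw [← hl]
  have h7 : ((Nat.clog 2 n : ℝ) + 1) ^ 2 ≤ (4 * l) ^ 2 := by
    apply pow_le_pow_left₀ (by positivity)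
    linarith
  have h8 : K * ((Nat.clog 2 n : ℝ) + 1) ^ 2 * (1 + Real.log n) ≤ K * (4 * l) ^ 2 * (2 * l) := by
    apply mul_le_mul
    · exact mul_le_mul_of_nonneg_left h7 (Nat.cast_nonneg K)
    · linarith
    · linarith
    · positivity
  have h9 : (1 : ℝ) ≤ l ^ 3 := one_le_pow₀ hl1
  have h10 : ∑ i ∈ Finset.range n, (c i : ℝ) / (i + 1) ≤ 32 * K * l ^ 3 := by
    refine (h6.trans h8).trans (le_of_eq ?_)
    ring
  calc s * ∑ i ∈ Finset.range n, (c i : ℝ) / (i + 1) + s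
      ≤ s * (32 * K * l ^ 3) + s * l ^ 3 := by
        apply add_le_add
        · exact mul_le_mul_of_nonneg_left h10 hs0.le
        · exact le_mul_of_one_le_right hs0.le h9
    _ = (1 + 32 * K) * s * l ^ 3 := by ring

end ALQ
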