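import Pool.Agent.ALQ.G2

/-!
# [ALQ-G3] words
-/

set_option autoImplicit false

namespace ALQ

open AG ALG

variable {H : Type*} [Group H]

/-- PROOF. Induction on the word (`p ≥ 1`). -/
theorem WD.pos {p : ℕ} (hp : p.Prime) {T : Finset H} {n : ℕ} {x : H} (h : WD p T n x) : 1 ≤ n := by
  induction h with
  | gen t ht => exact le_rfl
  | comm hx hy ih1 ih2 => omega
  | pow hx ih => exact Nat.mul_pos hp.pos ih

/-- PROOF. Induction on the word: `dl_mem_one`; `dl_comm` and `FF_mul`; `dl_pow_char` and `FF_pow`. -/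
theorem WD.mem {p : ℕ} (hp : p.Prime) {T : Finset H} {n : ℕ} {x : H} (h : WD p T n x) :
    dl p x ∈ FF p H n := by
  induction h with
  | gen t ht => exact dl_mem_one p t
  | comm hx hy ih1 ih2 =>
    rename_i i j x y
    have h1 := dl_comm p ih1 ih2
    have h2 : dl p x * dl p y - dl p y * dl p x ∈ FF p H (i + j) := by
      refine Submodule.sub_mem _ (FF_mul p ih1 ih2) ?_
      have h3 := FF_mul p ih2 ih1
      rwa [add_comm j i] at h3
    have h3 := Submodule.add_mem _ (FF_anti p _ h1) h2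
    rwa [sub_add_cancel] at h3
  | pow hx ih =>
    rw [dl_pow_char p hp]
    exact FF_pow p ih p

/-- PROOF. Induction on the word, with `A = p + 4`: `2 A^i + 2 A^j ≤ A^(i + j)` (`i, j ≥ 1`, `A ≥ 4`) and `p A^i ≤ A^(i + 1) ≤ A^(p i)`. -/
theorem WD.ball {p : ℕ} (hp : p.Prime) {T : Finset H} {n : ℕ} {x : H} (h : WD p T n x) :
    x ∈ ball T ((p + 4) ^ n) := by
  induction h with
  | gen t ht => exact ball_mono T (by rw [pow_one]; omega) (mem_ball_one ht)
  | comm hx hy ih1 ih2 =>
    rename_i i j x y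
    have hi := hx.pos hp
    have hj := hy.pos hp
    have h1 := mul_mem_ball (mul_mem_ball (mul_mem_ball ih1 ih2) (inv_mem_ball ih1))
      (inv_mem_ball ih2)
    refine ball_mono T ?_ h1
    have h2 : 1 ≤ (p + 4) ^ i := Nat.one_le_pow _ _ (by omega)
    have h3 : 1 ≤ (p + 4) ^ j := Nat.one_le_pow _ _ (by omega)
    have h4 : 4 ≤ (p + 4) ^ i := by
      calc 4 ≤ (p + 4) ^ 1 := by rw [pow_one]; omega
        _ ≤ (p + 4) ^ i := Nat.pow_le_pow_right (by omega) hi
    have h5 : 4 ≤ (p + 4) ^ j := by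
      calc 4 ≤ (p + 4) ^ 1 := by rw [pow_one]; omega
        _ ≤ (p + 4) ^ j := Nat.pow_le_pow_right (by omega) hj
    rw [pow_add]
    nlinarith
  | pow hx ih =>
    rename_i i x
    have hi := hx.pos hp
    refine ball_mono T ?_ (pow_mem_ball ih p)
    have hp2 := hp.two_le
    calc p * (p + 4) ^ i ≤ (p + 4) * (p + 4) ^ i := Nat.mul_le_mul_right _ (by omega)
      _ = (p + 4) ^ (i + 1) := by rw [pow_succ']
      _ ≤ (p + 4) ^ (p * i) := Nat.pow_le_pow_right (by omega) (by nlinarith)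

/-- PROOF. `WD.ball` and `AG.ball_finite`. -/
theorem WD_finite {p : ℕ} (hp : p.Prime) (T : Finset H) (n : ℕ) : {x | WD p T n x}.Finite := by
  exact (ball_finite T ((p + 4) ^ n)).subset fun x hx => WD.ball hp hx

end ALQ
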