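import Pool.Agent.ALQ.G3

/-!
# [ALQ-G4] the spaces NN
-/

set_option autoImplicit false

namespace ALQ

open AG ALG

variable {H : Type*} [Group H]

theorem WD.mem_NN {p : ℕ} {T : Finset H} {n : ℕ} {x : H} (h : WD p T n x) : dl p x ∈ NN p T n := by
  exact Submodule.mem_sup_left (Submodule.subset_span ⟨x, h, rfl⟩)

theorem FF_le_NN (p : ℕ) (T : Finset H) (n : ℕ) : FF p H (n + 1) ≤ NN p T n := by
  exact le_sup_right

/-- PROOF. `WD.mem` and `FF_anti`. -/
theorem NN_le {p : ℕ} (hp : p.Prime) (T : Finset H) (n : ℕ) : NN p T n ≤ FF p H n := by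
  refine sup_le ?_ (FF_anti p n)
  rw [Submodule.span_le]
  rintro a ⟨x, hx, rfl⟩
  exact hx.mem hp

/-- PROOF. Bilinear (`Submodule.span_induction` twice): for words `x, y` it is `dl (x y x⁻¹ y⁻¹)` modulo `FF (i + j + 1)` (`dl_comm`), a word of weight `i + j`; if one of the factors is in `FF (i + 1)` (or `FF (j + 1)`) then the products are in
`FF (i + j + 1)` (`FF_mul`, `NN_le`). -/
theorem NN_comm {p : ℕ} (hp : p.Prime) {T : Finset H} {i j : ℕ} {a b : MonoidAlgebra (ZMod p) H}
    (ha : a ∈ NN p T i) (hb : b ∈ NN p T j) : a * b - b * a ∈ NN p T (i + j) := by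
  have h1 : ∀ a ∈ NN p T i, ∀ y, WD p T j y → a * dl p y - dl p y * a ∈ NN p T (i + j) := by
    intro a ha y hy
    have h2 : NN p T i ≤ (NN p T (i + j)).comap
        (LinearMap.mulRight (ZMod p) (dl p y) - LinearMap.mulLeft (ZMod p) (dl p y)) := by
      refine sup_le ?_ ?_
      · rw [Submodule.span_le]
        rintro b ⟨x, hx, rfl⟩
        show dl p x * dl p y - dl p y * dl p x ∈ NN p T (i + j)
        have h3 := dl_comm p (hx.mem hp) (hy.mem hp)
        have h4 := Submodule.sub_mem _ (WD.comm hx hy).mem_NN (FF_le_NN p T _ h3)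
        rwa [sub_sub_cancel] at h4
      · intro b hb
        show b * dl p y - dl p y * b ∈ NN p T (i + j)
        apply FF_le_NN p T
        refine Submodule.sub_mem _ ?_ ?_
        · have h3 := FF_mul p hb (hy.mem hp)
          have h4 : i + 1 + j = i + j + 1 := by omega
          rwa [h4] at h3
        · have h3 := FF_mul p (hy.mem hp) hb
          have h4 : j + (i + 1) = i + j + 1 := by omega
          rwa [h4] at h3
    exact h2 ha
  have h2 : NN p T j ≤ (NN p T (i + j)).comap
      (LinearMap.mulLeft (ZMod p) a - LinearMap.mulRight (ZMod p) a) := by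
    refine sup_le ?_ ?_
    · rw [Submodule.span_le]
      rintro c ⟨y, hy, rfl⟩
      exact h1 a ha y hy
    · intro c hc
      show a * c - c * a ∈ NN p T (i + j)
      apply FF_le_NN p T
      have ha' := NN_le hp T i ha
      refine Submodule.sub_mem _ ?_ ?_
      · have h3 := FF_mul p ha' hc
        have h4 : i + (j + 1) = i + j + 1 := by omega
        rwa [h4] at h3
      · have h3 := FF_mul p hc ha'
        have h4 : j + 1 + i = i + j + 1 := by omega
        rwa [h4] at h3
  exact h2 hb

end ALQ
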