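import Pool.Agent.ALQ.G4

/-!
# [ALQ-G5] bases
-/

set_option autoImplicit false

namespace ALQ

open AG ALG

variable {H : Type*} [Group H]

theorem g5_lin {K V : Type*} [Field K] [AddCommGroup V] [Module K V] (F N : Submodule K V)
    (S : Set V) (hS : S ⊆ N) (hsp : N ≤ Submodule.span K S ⊔ F)
    (hfin : FiniteDimensional K (N.map F.mkQ)) :
    ∃ f : Fin (Module.finrank K (N.map F.mkQ)) → V, (∀ i, f i ∈ S) ∧
      N ≤ Submodule.span K (Set.range f) ⊔ F ∧
      ∀ c : Fin (Module.finrank K (N.map F.mkQ)) → K, ∑ i, c i • f i ∈ F → c = 0 := by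
  have hmapF : F.map F.mkQ = ⊥ := Submodule.mkQ_map_self F
  have h1 : N.map F.mkQ = Submodule.span K (F.mkQ '' S) := by
    apply le_antisymm
    · refine (Submodule.map_mono hsp).trans ?_
      rw [Submodule.map_sup, hmapF, sup_bot_eq, Submodule.map_span]
    · rw [← Submodule.map_span]
      exact Submodule.map_mono (Submodule.span_le.2 hS)
  have hfin2 : FiniteDimensional K (Submodule.span K (F.mkQ '' S)) := by
    rw [← h1]
    exact hfin
  obtain ⟨f, hf, hf2, hf3⟩ := Submodule.exists_fun_fin_finrank_span_eq K (F.mkQ '' S)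
  rw [h1]
  choose g hg hg2 using hf
  refine ⟨g, hg, ?_, ?_⟩
  · intro x hx
    have h2 : F.mkQ x ∈ Submodule.span K (Set.range f) := by
      rw [hf2, ← h1]
      exact Submodule.mem_map_of_mem hx
    have h3 : Set.range f = F.mkQ '' (Set.range g) := by
      rw [← Set.range_comp]
      congr 1
      funext i
      exact (hg2 i).symm
    rw [h3, ← Submodule.map_span] at h2
    obtain ⟨y, hy, hxy⟩ := h2
    have h4 : x - y ∈ F := by
      rw [← Submodule.ker_mkQ F, LinearMap.mem_ker, map_sub, hxy, sub_self]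
    have h5 : x = y + (x - y) := by abel
    rw [h5]
    exact Submodule.add_mem_sup hy h4
  · intro c hc
    have h2 : ∑ i, c i • f i = 0 := by
      have h3 : F.mkQ (∑ i, c i • g i) = 0 := by
        rw [← LinearMap.mem_ker, Submodule.ker_mkQ]
        exact hc
      rw [map_sum] at h3
      rw [← h3]
      refine Finset.sum_congr rfl fun i _ => ?_
      rw [map_smul, hg2]
    exact funext fun i => (Fintype.linearIndependent_iff.1 hf3) c h2 i

theorem g5_fin {p : ℕ} (hp : p.Prime) [Fact p.Prime] (T : Finset H) (n : ℕ) :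
    FiniteDimensional (ZMod p) ((NN p T n).map (FF p H (n + 1)).mkQ) := by
  have h1 : (NN p T n).map (FF p H (n + 1)).mkQ =
      Submodule.span (ZMod p) ((FF p H (n + 1)).mkQ '' {a | ∃ x, WD p T n x ∧ a = dl p x}) := by
    unfold NN
    rw [Submodule.map_sup, Submodule.map_span]
    have h2 : (FF p H (n + 1)).map (FF p H (n + 1)).mkQ = ⊥ := Submodule.mkQ_map_self _
    rw [h2, sup_bot_eq]
  rw [h1]
  apply FiniteDimensional.span_of_finite
  apply Set.Finite.image
  have h3 : {a | ∃ x, WD p T n x ∧ a = dl p x} = (dl p) '' {x | WD p T n x} := by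
    ext a
    constructor
    · rintro ⟨x, hx, rfl⟩
      exact ⟨x, hx, rfl⟩
    · rintro ⟨x, hx, rfl⟩
      exact ⟨x, hx, rfl⟩
  rw [h3]
  exact (WD_finite hp T n).image _

/-- PROOF. The image of `NN n` in the quotient by `FF (n + 1)` is spanned by the finite set (`WD_finite`) of the classes of the `dl x`, `x` a word of weight `n`; a spanning set contains a basis
(`exists_linearIndependent`-like lemmas, `Submodule.exists_fun_fin_finrank_span_eq`: `∃ f : Fin (finrank K (span K s)) → V, (∀ i, f i ∈ s) ∧ span (range f) = span s ∧ LinearIndependent K f`); lift back to the words. -/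
theorem exists_basis {p : ℕ} (hp : p.Prime) (T : Finset H) (n : ℕ) :
    ∃ b : Fin (mm p T n) → H, (∀ j, WD p T n (b j)) ∧
      NN p T n ≤ Submodule.span (ZMod p) (Set.range fun j => dl p (b j)) ⊔ FF p H (n + 1) ∧
      ∀ c : Fin (mm p T n) → ZMod p, ∑ j, c j • dl p (b j) ∈ FF p H (n + 1) → c = 0 := by
  have := Fact.mk hp
  obtain ⟨f, hf, hf2, hf3⟩ := g5_lin (FF p H (n + 1)) (NN p T n)
    {a | ∃ x, WD p T n x ∧ a = dl p x} (by
      rintro a ⟨x, hx, rfl⟩
      exact hx.mem_NN) le_rfl (g5_fin hp T n)
  choose b hb hb2 using hf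
  have h1 : f = fun j => dl p (b j) := funext hb2
  rw [h1] at hf2 hf3
  exact ⟨b, hb, hf2, hf3⟩

/-- PROOF. The classes of the `v a` are linearly independent in the image of `NN n` in the quotient, a finite dimensional space (spanned by the finite set of the classes of the words) of dimension `mm n`
(`LinearIndependent.fintype_card_le_finrank`). -/
theorem le_mm {p : ℕ} (hp : p.Prime) (T : Finset H) (n m : ℕ)
    (v : Fin m → MonoidAlgebra (ZMod p) H) (hv : ∀ a, v a ∈ NN p T n)
    (h : ∀ c : Fin m → ZMod p, ∑ a, c a • v a ∈ FF p H (n + 1) → c = 0) : m ≤ mm p T n := by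
  have := Fact.mk hp
  have hfin := g5_fin hp T n
  have h1 : LinearIndependent (ZMod p) (fun a : Fin m =>
      (⟨(FF p H (n + 1)).mkQ (v a), Submodule.mem_map_of_mem (hv a)⟩ :
        (NN p T n).map (FF p H (n + 1)).mkQ)) := by
    rw [Fintype.linearIndependent_iff]
    intro c hc a
    have h2 : (FF p H (n + 1)).mkQ (∑ a, c a • v a) = 0 := by
      have h3 := congrArg Subtype.val hc
      rw [map_sum]
      simpa using h3
    have h3 := h c (by
      rw [← Submodule.ker_mkQ (FF p H (n + 1)), LinearMap.mem_ker]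
      exact h2)
    exact congrFun h3 a
  have h2 := h1.fintype_card_le_finrank
  rwa [Fintype.card_fin] at h2

end ALQ
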