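import Pool.Agent.ALQ.G2

/-!
# [ALQ-G6] the powers of the augmentation ideal are generated by the generators
-/

set_option autoImplicit false

namespace ALQ

open AG ALG

variable {H : Type*} [Group H]

theorem g6_one (p : ℕ) : dl p (1 : H) = 0 := by
  unfold dl
  rw [map_one, sub_self]

theorem g6_gen (p : ℕ) (T : Finset H) (hT : Subgroup.closure (T : Set H) = ⊤) (h : H) :
    dl p h ∈ Submodule.span (ZMod p) {a | ∃ t ∈ T, a = dl p t} ⊔ FF p H 2 := by
  have hh : h ∈ Subgroup.closure (T : Set H) := by rw [hT]; exact Subgroup.mem_top h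
  induction hh using Subgroup.closure_induction with
  | mem t ht => exact Submodule.mem_sup_left (Submodule.subset_span ⟨t, ht, rfl⟩)
  | one => rw [g6_one]; exact Submodule.zero_mem _
  | mul x y _ _ hx hy =>
    rw [dl_mul]
    exact Submodule.add_mem _ (Submodule.add_mem _ hx hy)
      (Submodule.mem_sup_right (FF_mul p (dl_mem_one p x) (dl_mem_one p y)))
  | inv x _ hx =>
    have h1 : dl p x⁻¹ = (dl p x⁻¹ + dl p x) - dl p x := by abel
    rw [h1]
    exact Submodule.sub_mem _ (Submodule.mem_sup_right (dl_inv p (dl_mem_one p x))) hx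

theorem g6_aug (p : ℕ) (T : Finset H) (hT : Subgroup.closure (T : Set H) = ⊤) :
    FF p H 1 ≤ Submodule.span (ZMod p) {a | ∃ t ∈ T, a = dl p t} ⊔ FF p H 2 := by
  have h1 : FF p H 1 = aug p H := by
    show (aug p H) ^ (0 + 1) = aug p H
    rw [zero_add, pow_one]
  rw [h1]
  unfold aug
  rw [Submodule.span_le]
  rintro a ⟨h, rfl⟩
  exact g6_gen p T hT h

/-- PROOF. `n = 0`: `FF 0 = ⊤` and `h = 1 + dl h`, so everything is a multiple of the empty product `1` modulo `FF 1` (span of the `h`, `MonoidAlgebra.induction_on`). Step: `FF (n + 1) = aug * FF n`-like; `aug` is spanned by the `dl h`, and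
`dl h ∈ span {dl t | t ∈ T} ⊔ FF 2` for all `h` (the set of the `h` with this property is a subgroup by `dl_mul`, `dl_inv`, and contains `T`). So `aug ≤ span {dl t} ⊔ FF 2`, and `aug ^ (n + 1) = aug * aug ^ n ≤ (span {dl t} ⊔ FF 2) * (span {products of
length n} ⊔ FF (n + 1)) ≤ span {products of length n + 1} ⊔ FF (n + 2)` (`Submodule.mul_sup`, `sup_mul`, `span_mul_span`, `FF_mul`; for `n = 0` use `aug` itself). -/
theorem FF_span (p : ℕ) (T : Finset H) (hT : Subgroup.closure (T : Set H) = ⊤) (n : ℕ) :
    FF p H n ≤ Submodule.span (ZMod p)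
      {a | ∃ l : List H, l.length = n ∧ (∀ t ∈ l, t ∈ T) ∧ a = (l.map (dl p)).prod} ⊔
        FF p H (n + 1) := by
  induction n with
  | zero =>
    intro a _
    induction a using MonoidAlgebra.induction_on with
    | of h =>
      have h1 : MonoidAlgebra.of (ZMod p) H h = 1 + dl p h := by
        unfold dl
        abel
      rw [h1]
      exact Submodule.add_mem_sup (Submodule.subset_span ⟨[], rfl, by simp, by simp⟩)
        (dl_mem_one p h)
    | add x y hx hy => exact Submodule.add_mem _ (hx Submodule.mem_top) (hy Submodule.mem_top)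
    | smul r x hx => exact Submodule.smul_mem _ _ (hx Submodule.mem_top)
  | succ n ih =>
    rcases Nat.eq_zero_or_pos n with hn | hn
    · subst hn
      refine (g6_aug p T hT).trans (sup_le_sup_right ?_ _)
      rw [Submodule.span_le]
      rintro a ⟨t, ht, rfl⟩
      exact Submodule.subset_span ⟨[t], rfl, by simpa using ht, by simp⟩
    · obtain ⟨m, rfl⟩ : ∃ m, n = m + 1 := ⟨n - 1, by omega⟩
      show (aug p H) ^ (m + 1 + 1) ≤ _
      rw [pow_succ', Submodule.mul_le]
      intro a ha b hb
      have ha' : a ∈ FF p H 1 := by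
        show a ∈ (aug p H) ^ (0 + 1)
        rw [zero_add, pow_one]
        exact ha
      have hb' : b ∈ FF p H (m + 1) := hb
      obtain ⟨a1, ha1, a2, ha2, rfl⟩ := Submodule.mem_sup.1 (g6_aug p T hT ha')
      obtain ⟨b1, hb1, b2, hb2, rfl⟩ := Submodule.mem_sup.1 (ih hb')
      have ha1' : a1 ∈ FF p H 1 := by
        have h1 := Submodule.sub_mem _ ha' (FF_anti p 1 ha2)
        rwa [add_sub_cancel_right] at h1
      have h1 : (a1 + a2) * (b1 + b2) = a1 * b1 + (a1 * b2 + a2 * (b1 + b2)) := by
        rw [add_mul, mul_add]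
        abel
      rw [h1]
      refine Submodule.add_mem_sup ?_ (Submodule.add_mem _ ?_ ?_)
      · have h2 := Submodule.mul_mem_mul ha1 hb1
        rw [Submodule.span_mul_span] at h2
        refine Submodule.span_mono ?_ h2
        rintro x ⟨y, ⟨t, ht, rfl⟩, z, ⟨l, hl, hl2, rfl⟩, rfl⟩
        refine ⟨t :: l, by rw [List.length_cons, hl], ?_, by simp⟩
        intro s hs
        rcases List.mem_cons.1 hs with rfl | hs
        · exact ht
        · exact hl2 s hs
      · exact FF_le p (by omega) (FF_mul p ha1' hb2)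
      · exact FF_le p (by omega) (FF_mul p ha2 hb')

end ALQ
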