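import Pool.Agent.ALQ.A1
import Pool.Agent.ALQ.G5

/-!
# [ALQ-JJ] the letters (helper52)
-/

set_option autoImplicit false

namespace ALQ

open AG ALG

variable {H : Type*} [Group H]

/-- a basis of words of `NN n` modulo `FF (n + 1)` -/
noncomputable def bas {p : ℕ} (hp : p.Prime) (T : Finset H) (n : ℕ) : Fin (mm p T n) → H :=
  (exists_basis hp T n).choose

theorem bas_word {p : ℕ} (hp : p.Prime) (T : Finset H) (n : ℕ) (j : Fin (mm p T n)) :
    WD p T n (bas hp T n j) :=
  (exists_basis hp T n).choose_spec.1 j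

theorem bas_span {p : ℕ} (hp : p.Prime) (T : Finset H) (n : ℕ) :
    NN p T n ≤ Submodule.span (ZMod p) (Set.range fun j => dl p (bas hp T n j)) ⊔
      FF p H (n + 1) :=
  (exists_basis hp T n).choose_spec.2.1

/-- the letters: the basis words of weight at most `r` -/
abbrev JJ (p : ℕ) (T : Finset H) (r : ℕ) : Type := Σ x : Fin r, Fin (mm p T (x.val + 1))

/-- the weight of a letter -/
def wJ (p : ℕ) (T : Finset H) (r : ℕ) (j : JJ p T r) : ℕ := j.1.val + 1

/-- the basis word of a letter -/
noncomputable def bJ {p : ℕ} (hp : p.Prime) (T : Finset H) (r : ℕ) (j : JJ p T r) : H :=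
  bas hp T (j.1.val + 1) j.2

/-- the adjoint operators of the letters -/
noncomputable def opA {p : ℕ} (hp : p.Prime) (T : Finset H) (r : ℕ) (j : JJ p T r) :
    MonoidAlgebra (ZMod p) H →ₗ[ZMod p] MonoidAlgebra (ZMod p) H :=
  adj p (dl p (bJ hp T r j))

/-- the right multiplications by the letters -/
noncomputable def opR {p : ℕ} (hp : p.Prime) (T : Finset H) (r : ℕ) (j : JJ p T r) :
    MonoidAlgebra (ZMod p) H →ₗ[ZMod p] MonoidAlgebra (ZMod p) H :=
  LinearMap.mulRight (ZMod p) (dl p (bJ hp T r j))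

end ALQ
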