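import Pool.Agent.ALQ.G18
import Pool.Agent.ALQ.G20
import Pool.Agent.ALQ.G22
import Pool.Agent.ALG.A1

/-!
# [ALQ-Main] polynomial automorphic growth and the group algebra (helper52)
-/

set_option autoImplicit false

namespace ALQ

open AG ALG

theorem finrank_bound {H : Type*} [Group H] {p : ℕ} (hp : p.Prime) (T : Finset H)
    (hT : Subgroup.closure (T : Set H) = ⊤) (h : PolyBdd (autGrowth T)) :
    ∃ C : ℝ, 0 < C ∧ ∀ n : ℕ, 1 ≤ n →
      Module.Finite (ZMod p) (MonoidAlgebra (ZMod p) H ⧸ (aug p H) ^ n) ∧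
      (Module.finrank (ZMod p) (MonoidAlgebra (ZMod p) H ⧸ (aug p H) ^ n) : ℝ) ≤
        Real.exp (C * Real.sqrt n * Real.log (n + 2) ^ 3) := by
  obtain ⟨K, hK⟩ := mm_log hp T hT h
  obtain ⟨C, hC0, hC⟩ := card_mono_le p K (fun i => mm p T (i + 1)) (fun i => hK (i + 1) (by omega))
  refine ⟨C, hC0, fun n hn => ?_⟩
  exact ⟨finite_quotient hp T hT n hn,
    (Nat.cast_le.2 (finrank_quotient_le hp T hT n hn)).trans (hC n)⟩

theorem final {G : Type*} [Group G] (S : Finset G) (hS : Subgroup.closure (S : Set G) = ⊤)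
    (H : Subgroup G) [H.FiniteIndex] {p : ℕ} (hp : p.Prime) (h : PolyBdd (autGrowth S)) :
    ∃ C : ℝ, 0 < C ∧ ∀ n : ℕ, 1 ≤ n →
      Module.Finite (ZMod p) (MonoidAlgebra (ZMod p) H ⧸ (aug p H) ^ n) ∧
      (Module.finrank (ZMod p) (MonoidAlgebra (ZMod p) H ⧸ (aug p H) ^ n) : ℝ) ≤
        Real.exp (C * Real.sqrt n * Real.log (n + 2) ^ 3) := by
  have : Group.FG G := ⟨⟨S, hS⟩⟩
  obtain ⟨T, hT⟩ : ∃ T : Finset H, Subgroup.closure (T : Set H) = ⊤ :=
    (Group.fg_def (G := H)).1 inferInstance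
  exact finrank_bound hp T hT (polyBdd_sub S hS H T h)

end ALQ
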